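import Pool.Agent.K3h73.TF.Pert
import Pool.Agent.K3h64.TF.Mt
import Pool.Agent.K3h69.TF.Inter
import Pool.Agent.K3h69.TF.Wlim
import Pool.Agent.K3h49.TF.Fac
import Pool.Agent.K3h9.TF.Arg
import Pool.Agent.K3h9.TF.Tr

set_option autoImplicit false
set_option linter.unusedSectionVars false

namespace Pool.Agent.K3h73.TF

open scoped InnerProductSpace ComplexConjugate Topology InnerProduct
open Filter FreeGroup

section asm

variable {H : Type} [NormedAddCommGroup H] [InnerProductSpace ℂ H] [CompleteSpace H]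

theorem exists_subproj (U : Submodule ℂ H) (hU : IsClosed (U : Set H)) :
    ∃ P : H →L[ℂ] H, star P = P ∧ P * P = P ∧ (∀ v, v ∈ U ↔ P v = v) ∧ ∀ v, P v ∈ U := by
  have : CompleteSpace U := hU.completeSpace_coe
  refine ⟨U.starProjection, ?_, ?_, fun v => ?_, fun v => ?_⟩
  · have h := isSelfAdjoint_starProjection U
    exact h
  · ext v
    change U.starProjection (U.starProjection v) = U.starProjection v
    exact (Submodule.starProjection_eq_self_iff).2 (Submodule.starProjection_apply_mem U v)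
  · rw [Submodule.starProjection_eq_self_iff]
  · exact Submodule.starProjection_apply_mem U v

/-- an operator which commutes with `A` commutes with `U` -/
theorem comm_U {A U X : H →L[ℂ] H} (hA : star A = A)
    (hAU : (1 + Complex.I • A) ^ 2 = U * (1 - Complex.I • A) ^ 2) (hX : X * A = A * X) :
    X * U = U * X := by
  obtain ⟨S, hS1, hS2, hS3⟩ := K3h64.TF.exists_S A hA
  have h1 : X * (1 + Complex.I • A) = (1 + Complex.I • A) * X := by
    rw [mul_add, add_mul, mul_one, one_mul, mul_smul_comm, hX, smul_mul_assoc]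
  have h2 : X * (1 - Complex.I • A) = (1 - Complex.I • A) * X := by
    rw [mul_sub, sub_mul, mul_one, one_mul, mul_smul_comm, hX, smul_mul_assoc]
  have h1' : X * (1 + Complex.I • A) ^ 2 = (1 + Complex.I • A) ^ 2 * X := by
    rw [sq, ← mul_assoc, h1, mul_assoc, h1, ← mul_assoc]
  have h2' : X * (1 - Complex.I • A) ^ 2 = (1 - Complex.I • A) ^ 2 * X := by
    rw [sq, ← mul_assoc, h2, mul_assoc, h2, ← mul_assoc]
  have h3 : (X * U) * (1 - Complex.I • A) ^ 2 = (U * X) * (1 - Complex.I • A) ^ 2 := by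
    rw [mul_assoc, ← hAU, h1', hAU, mul_assoc, ← h2', ← mul_assoc]
  have h4 : (1 - Complex.I • A) ^ 2 * (S * S) = 1 := by
    calc (1 - Complex.I • A) ^ 2 * (S * S) =
        (1 - Complex.I • A) * ((1 - Complex.I • A) * S) * S := by rw [sq]; noncomm_ring
      _ = 1 := by rw [hS1, mul_one, hS1]
  calc X * U = (X * U) * ((1 - Complex.I • A) ^ 2 * (S * S)) := by rw [h4, mul_one]
    _ = (X * U) * (1 - Complex.I • A) ^ 2 * (S * S) := by rw [← mul_assoc]
    _ = (U * X) * ((1 - Complex.I • A) ^ 2 * (S * S)) := by rw [h3, mul_assoc]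
    _ = U * X := by rw [h4, mul_one]

/-- the key contradiction: an intertwiner and an irreducible summand -/
theorem no_irred (R : Rep G G H) (A A' : Bool → H →L[ℂ] H)
    (hA1 : ∀ i, star (A i) = A i)
    (hA3 : ∀ i, ∀ X : H →L[ℂ] H, X * R.L (of i) = R.L (of i) * X → X * A i = A i * X)
    (hAU : ∀ i, (1 + Complex.I • A i) ^ 2 = R.L (of i) * (1 - Complex.I • A i) ^ 2)
    (hA1' : ∀ i, star (A' i) = A' i) (Θ : H →L[ℂ] H) (hΘ : ∀ i, Θ * A' i = A i * Θ)
    (V : Submodule ℂ H) (hV : IrredOn (A' true + Complex.I • A' false) V)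
    (hne : ∃ v ∈ V, Θ v ≠ 0) : False := by
  obtain ⟨P, hP1, hP2, hP3, hP4⟩ := exists_subproj V hV.closed
  set T' := A' true + Complex.I • A' false with hT'
  have hsT' : star T' = A' true - Complex.I • A' false := by
    rw [hT', star_add, star_smul, hA1', hA1']
    simp [sub_eq_add_neg]
  have hPin : ∀ v w, ⟪v, P w⟫_ℂ = ⟪P v, w⟫_ℂ := fun v w => by
    conv_lhs => rw [← hP1]
    rw [ContinuousLinearMap.star_eq_adjoint, ContinuousLinearMap.adjoint_inner_right]
  have hPP : ∀ v, P (P v) = P v := fun v => congrArg (fun f : H →L[ℂ] H => f v) hP2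
  -- invariance of `V`
  have e1 : A' true = (1 / 2 : ℂ) • (T' + star T') := by
    rw [hsT', hT']
    rw [show A' true + Complex.I • A' false + (A' true - Complex.I • A' false) =
      (2 : ℂ) • A' true by rw [two_smul]; abel, smul_smul]
    norm_num
  have e2 : A' false = (-Complex.I / 2 : ℂ) • (T' - star T') := by
    rw [hsT', hT']
    rw [show A' true + Complex.I • A' false - (A' true - Complex.I • A' false) =
      (2 * Complex.I : ℂ) • A' false by rw [mul_smul, two_smul]; abel, smul_smul]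
    have : (-Complex.I / 2 * (2 * Complex.I) : ℂ) = 1 := by
      have := Complex.I_mul_I
      linear_combination -this
    rw [this, one_smul]
  have hinv : ∀ i, ∀ v ∈ V, A' i v ∈ V := by
    intro i v hv
    cases i
    · rw [e2]
      exact V.smul_mem _ (V.sub_mem (hV.map v hv) (hV.map_star v hv))
    · rw [e1]
      exact V.smul_mem _ (V.add_mem (hV.map v hv) (hV.map_star v hv))
  have hPA : ∀ i, P * A' i = A' i * P := by
    intro i
    have h1 : P * A' i * P = A' i * P := by
      ext v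
      change P (A' i (P v)) = A' i (P v)
      exact (hP3 _).1 (hinv i _ (hP4 v))
    have h2 := congrArg star h1
    rw [star_mul, star_mul, star_mul, hP1, hA1', ← mul_assoc, h1] at h2
    exact h2.symm
  -- Schur's lemma
  have hschur : ∀ X : H →L[ℂ] H, (∀ i, X * A' i = A' i * X) → P * X * P = X →
      ∃ c : ℂ, X = c • P := by
    intro X hX hPX
    refine K3h49.TF.t_schur H (Set.range A') P ?_ hP1 hP2 ?_ ?_ X ?_ hPX
    · rintro _ ⟨i, rfl⟩; exact ⟨i, (hA1' i).symm⟩
    · rintro _ ⟨i, rfl⟩; exact hPA i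
    · intro L hL hLP hLS
      have hLV : L ≤ V := fun v hv => (hP3 v).2 (hLP v hv)
      have hL1 : ∀ v ∈ L, T' v ∈ L := fun v hv =>
        L.add_mem (hLS _ ⟨true, rfl⟩ v hv) (L.smul_mem _ (hLS _ ⟨false, rfl⟩ v hv))
      have hL2 : ∀ v ∈ L, (star T') v ∈ L := fun v hv => by
        rw [hsT']
        exact L.sub_mem (hLS _ ⟨true, rfl⟩ v hv) (L.smul_mem _ (hLS _ ⟨false, rfl⟩ v hv))
      rcases hV.irred L hLV hL hL1 hL2 with h | h
      · exact Or.inl h
      · exact Or.inr (fun v => by rw [h]; exact hP4 v)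
    · rintro _ ⟨i, rfl⟩; exact hX i
  -- adjoint relations
  have hΘs : ∀ i, A' i * star Θ = star Θ * A i := by
    intro i
    have := congrArg star (hΘ i)
    rwa [star_mul, star_mul, hA1', hA1] at this
  -- compression of operators commuting with `A i`
  have hcomp : ∀ X : H →L[ℂ] H, (∀ i, X * A i = A i * X) →
      ∃ c : ℂ, P * (star Θ * X * Θ) * P = c • P := by
    intro X hX
    refine hschur _ (fun i => ?_) ?_
    · have h1 : (star Θ * X * Θ) * A' i = A' i * (star Θ * X * Θ) := by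
        calc (star Θ * X * Θ) * A' i = star Θ * X * (Θ * A' i) := by noncomm_ring
          _ = star Θ * (X * A i) * Θ := by rw [hΘ]; noncomm_ring
          _ = (star Θ * A i) * X * Θ := by rw [hX]; noncomm_ring
          _ = A' i * (star Θ * X * Θ) := by rw [← hΘs]; noncomm_ring
      calc P * (star Θ * X * Θ) * P * A' i = P * (star Θ * X * Θ) * (P * A' i) := by noncomm_ring
        _ = P * ((star Θ * X * Θ) * A' i) * P := by rw [hPA]; noncomm_ring
        _ = (P * A' i) * (star Θ * X * Θ) * P := by rw [h1]; noncomm_ring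
        _ = _ := by rw [hPA]; noncomm_ring
    · calc P * (P * (star Θ * X * Θ) * P) * P = (P * P) * (star Θ * X * Θ) * (P * P) := by
            noncomm_ring
        _ = _ := by rw [hP2]
  obtain ⟨c, hc⟩ := hcomp 1 (fun i => by rw [one_mul, mul_one])
  rw [mul_one] at hc
  -- `c` is positive
  obtain ⟨v0, hv0, hv0'⟩ := hne
  have hPv0 : P v0 = v0 := (hP3 v0).1 hv0
  have hc1 : ((‖Θ v0‖ ^ 2 : ℝ) : ℂ) = c * ((‖v0‖ ^ 2 : ℝ) : ℂ) := by
    have h1 := congrArg (fun f : H →L[ℂ] H => ⟪v0, f v0⟫_ℂ) hc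
    have h2 : (P * (star Θ * Θ) * P) v0 = P (star Θ (Θ (P v0))) := rfl
    simp only [h2, smul_apply, inner_smul_right] at h1
    rw [hPv0] at h1
    have h3 : ⟪v0, P (star Θ (Θ v0))⟫_ℂ = ⟪Θ v0, Θ v0⟫_ℂ := by
      have h4 : ⟪v0, P (star Θ (Θ v0))⟫_ℂ = ⟪P v0, star Θ (Θ v0)⟫_ℂ := by
        conv_lhs => rw [← hP1]
        rw [ContinuousLinearMap.star_eq_adjoint, ContinuousLinearMap.adjoint_inner_right]
      rw [h4, hPv0, ContinuousLinearMap.star_eq_adjoint, ContinuousLinearMap.adjoint_inner_right]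
    rw [h3, inner_self_eq_norm_sq_to_K, inner_self_eq_norm_sq_to_K] at h1
    push_cast
    exact h1
  have hv0n : 0 < ‖v0‖ ^ 2 := by
    have : v0 ≠ 0 := by rintro rfl; exact hv0' (map_zero _)
    positivity
  have hΘn : 0 < ‖Θ v0‖ ^ 2 := by positivity
  have hcr : c = ((‖Θ v0‖ ^ 2 / ‖v0‖ ^ 2 : ℝ) : ℂ) := by
    rw [Complex.ofReal_div, eq_div_iff (by exact_mod_cast hv0n.ne')]
    exact hc1.symm
  have hcr0 : 0 < ‖Θ v0‖ ^ 2 / ‖v0‖ ^ 2 := by positivity
  have hc0 : c ≠ 0 := by rw [hcr]; exact_mod_cast hcr0.ne'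
  have hcs : star (c⁻¹) = c⁻¹ := by
    rw [hcr, ← Complex.ofReal_inv]; exact Complex.conj_ofReal _
  -- the projection
  set e : H →L[ℂ] H := c⁻¹ • (Θ * P * star Θ) with he
  have hes : star e = e := by
    rw [he, star_smul, star_mul, star_mul, star_star, hP1, hcs, mul_assoc]
  have hQ : ∀ X : H →L[ℂ] H, (Θ * P * star Θ) * X * (Θ * P * star Θ) =
      Θ * (P * (star Θ * X * Θ) * P) * star Θ := fun X => by noncomm_ring
  have hee : e * e = e := by
    rw [he, smul_mul_smul_comm]
    have h1 : (Θ * P * star Θ) * (Θ * P * star Θ) = c • (Θ * P * star Θ) := by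
      have h2 := hQ 1
      rw [mul_one, mul_one, hc] at h2
      rw [h2, mul_smul_comm, smul_mul_assoc]
    rw [h1, smul_smul, mul_assoc, inv_mul_cancel₀ hc0, mul_one]
  have he0 : e ≠ 0 := by
    intro h0
    have h1 : Θ * P * star Θ = 0 := by
      rw [he, smul_eq_zero] at h0
      exact h0.resolve_left (inv_ne_zero hc0)
    have h2 : P (star Θ (Θ v0)) = 0 := by
      have h3 := congrArg (fun f : H →L[ℂ] H => ⟪Θ v0, f (Θ v0)⟫_ℂ) h1
      have h4 : (Θ * P * star Θ) (Θ v0) = Θ (P (star Θ (Θ v0))) := rfl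
      simp only [h4, zero_apply, inner_zero_right] at h3
      have h5 : ⟪Θ v0, Θ (P (star Θ (Θ v0)))⟫_ℂ =
          ⟪P (star Θ (Θ v0)), P (star Θ (Θ v0))⟫_ℂ := by
        have h6 : ⟪Θ v0, Θ (P (star Θ (Θ v0)))⟫_ℂ = ⟪star Θ (Θ v0), P (star Θ (Θ v0))⟫_ℂ := by
          rw [ContinuousLinearMap.star_eq_adjoint, ContinuousLinearMap.adjoint_inner_left]
        rw [h6, ← hPin, hPP]
      rw [h5] at h3
      exact inner_self_eq_zero.1 h3
    have h3 := congrArg (fun f : H →L[ℂ] H => f v0) hc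
    have h4 : (P * (star Θ * Θ) * P) v0 = P (star Θ (Θ (P v0))) := rfl
    simp only [h4, smul_apply] at h3
    rw [hPv0, h2] at h3
    have h5 := (smul_eq_zero.1 h3.symm).resolve_left hc0
    rw [h5, map_zero] at hv0'
    exact hv0' rfl
  have heA : ∀ i, e * A i = A i * e := by
    intro i
    rw [he, smul_mul_assoc, mul_smul_comm]
    congr 1
    calc Θ * P * star Θ * A i = Θ * P * (star Θ * A i) := by noncomm_ring
      _ = Θ * (P * A' i) * star Θ := by rw [← hΘs]; noncomm_ring
      _ = (Θ * A' i) * P * star Θ := by rw [hPA]; noncomm_ring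
      _ = A i * (Θ * P * star Θ) := by rw [hΘ]; noncomm_ring
  have heL : ∀ g, e * R.L g = R.L g * e := by
    intro g
    ext v
    exact comm_of_gen R e (fun i v => by
      have := comm_U (hA1 i) (hAU i) (heA i)
      exact congrArg (fun f : H →L[ℂ] H => f v) this) g v
  obtain ⟨X, hX1, hX2⟩ := K3h69.TF.t_min H R.b R.L (fun g h => R.hL g h) e hes hee he0 heL
  obtain ⟨c', hc'⟩ := hcomp X (fun i => hA3 i X (hX1 (of i)))
  refine hX2 (c' / c) ?_
  rw [he, smul_mul_assoc, smul_mul_smul_comm, hQ, hc', mul_smul_comm, smul_mul_assoc, smul_smul,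
    smul_smul]
  congr 1
  field_simp

end asm

end Pool.Agent.K3h73.TF
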