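import Pool.Agent.K3h73.TF.Nuc

set_option autoImplicit false
set_option linter.unusedSectionVars false

namespace Pool.Agent.K3h73.TF

open scoped InnerProductSpace ComplexConjugate Topology
open Filter

section iso

variable {X Y : Type} {H K : Type} [NormedAddCommGroup H] [InnerProductSpace ℂ H] [CompleteSpace H]
  [NormedAddCommGroup K] [InnerProductSpace ℂ K] [CompleteSpace K]

/-- the operator which sends the Hilbert basis `b` to the orthonormal family `v` -/
noncomputable def iso (b : HilbertBasis X ℂ H) (v : X → K) (hv : Orthonormal ℂ v) : H →L[ℂ] K :=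
  (hv.orthogonalFamily.linearIsometry.comp b.repr.toLinearIsometry).toContinuousLinearMap

theorem iso_apply (b : HilbertBasis X ℂ H) (v : X → K) (hv : Orthonormal ℂ v) (x : X) :
    iso b v hv (b x) = v x := by
  classical
  have h : iso b v hv (b x) = hv.orthogonalFamily.linearIsometry (b.repr (b x)) := rfl
  rw [h, b.repr_self, OrthogonalFamily.linearIsometry_apply_single]
  simp

/-- two operators which agree on a Hilbert basis are equal -/
theorem ext_basis (b : HilbertBasis X ℂ H) {S T : H →L[ℂ] K} (h : ∀ x, S (b x) = T (b x)) :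
    S = T := by
  refine ContinuousLinearMap.ext_on (s := Set.range b) ?_ ?_
  · rw [dense_iff_closure_eq, ← Submodule.topologicalClosure_coe, b.dense_span]; rfl
  · rintro _ ⟨x, rfl⟩; exact h x

theorem basis_eq_zero (b : HilbertBasis X ℂ H) {v : H} (h : ∀ x, ⟪b x, v⟫_ℂ = 0) : v = 0 := by
  have h1 := b.hasSum_inner_mul_inner v v
  have h2 : (fun i => ⟪v, b i⟫_ℂ * ⟪b i, v⟫_ℂ) = fun _ => 0 := by
    funext i; rw [h i, mul_zero]
  rw [h2] at h1
  have := h1.unique hasSum_zero
  exact inner_self_eq_zero.1 this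

/-- a vector with finitely many nonzero coefficients -/
theorem mem_span_of_finite (b : HilbertBasis X ℂ H) (F : Finset X) {v : H}
    (h : ∀ x, x ∉ F → ⟪b x, v⟫_ℂ = 0) : v ∈ Submodule.span ℂ (b '' (F : Set X)) := by
  have h1 := b.hasSum_repr v
  have h2 : HasSum (fun i => b.repr v i • b i) (∑ i ∈ F, b.repr v i • b i) :=
    hasSum_sum_of_ne_finset_zero (fun i hi => by rw [b.repr_apply_apply, h i hi, zero_smul])
  rw [h1.unique h2]
  exact Submodule.sum_mem _ (fun i hi => Submodule.smul_mem _ _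
    (Submodule.subset_span ⟨i, hi, rfl⟩))

end iso

section group

variable {Γ : Type} [Group Γ]

/-- the action of `Γ` on the first factor of `Γ × Q` -/
@[reducible] def actFst (Γ Q : Type) [Group Γ] : MulAction Γ (Γ × Q) where
  smul g x := (g * x.1, x.2)
  one_smul x := by
    change ((1 : Γ) * x.1, x.2) = x
    rw [one_mul]
  mul_smul g h x := by
    change (g * h * x.1, x.2) = (g * (h * x.1), x.2)
    rw [mul_assoc]

/-- a Hilbert space with a basis indexed by a `Γ`-set, and the translations -/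
structure Rep (Γ : Type) [Group Γ] (X : Type) [MulAction Γ X] (K : Type) [NormedAddCommGroup K]
    [InnerProductSpace ℂ K] [CompleteSpace K] where
  b : HilbertBasis X ℂ K
  L : Γ → K →L[ℂ] K
  hL : ∀ g x, L g (b x) = b (g • x)

variable {X : Type} [MulAction Γ X] {K : Type} [NormedAddCommGroup K]
    [InnerProductSpace ℂ K] [CompleteSpace K]

/-- existence of the translations -/
noncomputable def Rep.ofBasis (b : HilbertBasis X ℂ K) : Rep Γ X K where
  b := b
  L := fun g => iso b (fun x => b (g • x))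
    (b.orthonormal.comp (fun x : X => g • x) (MulAction.injective g))
  hL := fun _ _ => iso_apply _ _ _ _

theorem Rep.L_one (R : Rep Γ X K) : R.L 1 = 1 :=
  ext_basis R.b (fun x => by rw [R.hL, one_smul]; rfl)

theorem Rep.L_mul (R : Rep Γ X K) (g h : Γ) : R.L (g * h) = R.L g * R.L h :=
  ext_basis R.b (fun x => by
    rw [R.hL, mul_apply_eq_comp, R.hL, R.hL, mul_smul])

theorem Rep.L_inv_mul (R : Rep Γ X K) (g : Γ) : R.L g⁻¹ * R.L g = 1 := by
  rw [← R.L_mul, inv_mul_cancel, R.L_one]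

theorem Rep.L_mul_inv (R : Rep Γ X K) (g : Γ) : R.L g * R.L g⁻¹ = 1 := by
  rw [← R.L_mul, mul_inv_cancel, R.L_one]

theorem Rep.L_star (R : Rep Γ X K) (g : Γ) : star (R.L g) = R.L g⁻¹ := by
  classical
  refine ext_basis R.b (fun x => ?_)
  rw [← sub_eq_zero]
  refine basis_eq_zero R.b (fun y => ?_)
  rw [inner_sub_right, ContinuousLinearMap.star_eq_adjoint, ContinuousLinearMap.adjoint_inner_right,
    R.hL, R.hL, orthonormal_iff_ite.1 R.b.orthonormal, orthonormal_iff_ite.1 R.b.orthonormal,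
    sub_eq_zero]
  congr 1
  simp only [eq_iff_iff]
  rw [eq_inv_smul_iff]

end group

section trace

attribute [local instance] actFst

variable {Γ : Type} [Group Γ] {Q : Type} {H K : Type}
    [NormedAddCommGroup H] [InnerProductSpace ℂ H] [CompleteSpace H]
    [NormedAddCommGroup K] [InnerProductSpace ℂ K] [CompleteSpace K]

theorem smul_fst (g h : Γ) (q : Q) : g • ((h, q) : Γ × Q) = (g * h, q) := rfl

/-- fiberwise sums over a product with a finite factor -/
theorem hasSum_fiber [Fintype Q] {f : Γ × Q → ℂ} {a : ℂ} (h : HasSum f a) {g : Q → ℂ}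
    (hg : ∀ q, HasSum (fun x => f (x, q)) (g q)) : ∑ q, g q = a := by
  have h1 : HasSum (fun x : Q × Γ => f (x.2, x.1)) a :=
    ((Equiv.prodComm Q Γ).hasSum_iff (f := f)).2 h
  have h2 : HasSum g a := h1.prod_fiberwise (fun q => hg q)
  exact (hasSum_fintype g).unique h2

theorem hasSum_fiber' [Fintype Q] {f : Γ × Q → ℂ} {a : ℂ} (h : HasSum f a) :
    HasSum (fun x => ∑ q, f (x, q)) a :=
  h.prod_fiberwise (fun x => hasSum_fintype (fun q => f (x, q)))

/-- the trace property -/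
theorem trace_comm [Fintype Q] (R : Rep Γ Γ H) (S : Rep Γ (Γ × Q) K) (P : H →L[ℂ] K)
    (P' : K →L[ℂ] H) (hP : ∀ g v, P (R.L g v) = S.L g (P v))
    (hP' : ∀ g v, P' (S.L g v) = R.L g (P' v)) :
    ⟪R.b 1, P' (P (R.b 1))⟫_ℂ = ∑ q, ⟪S.b (1, q), P (P' (S.b (1, q)))⟫_ℂ := by
  have e1 : ∀ g v w, ⟪v, S.L g w⟫_ℂ = ⟪S.L g⁻¹ v, w⟫_ℂ := fun g v w => by
    rw [← S.L_star, ContinuousLinearMap.star_eq_adjoint, ContinuousLinearMap.adjoint_inner_left]
  have e2 : ∀ g v w, ⟪R.L g v, w⟫_ℂ = ⟪v, R.L g⁻¹ w⟫_ℂ := fun g v w => by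
    rw [← R.L_star, ContinuousLinearMap.star_eq_adjoint, ContinuousLinearMap.adjoint_inner_right]
  have h1 : HasSum (fun x => ⟪R.b 1, P' (S.b x)⟫_ℂ * ⟪S.b x, P (R.b 1)⟫_ℂ)
      ⟪R.b 1, P' (P (R.b 1))⟫_ℂ := by
    have := S.b.hasSum_inner_mul_inner (ContinuousLinearMap.adjoint P' (R.b 1)) (P (R.b 1))
    simpa [ContinuousLinearMap.adjoint_inner_left] using this
  refine (hasSum_fiber h1 (fun q => ?_)).symm
  have h2 : HasSum (fun g => ⟪S.b (1, q), P (R.b g)⟫_ℂ * ⟪R.b g, P' (S.b (1, q))⟫_ℂ)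
      ⟪S.b (1, q), P (P' (S.b (1, q)))⟫_ℂ := by
    have := R.b.hasSum_inner_mul_inner (ContinuousLinearMap.adjoint P (S.b (1, q)))
      (P' (S.b (1, q)))
    simpa [ContinuousLinearMap.adjoint_inner_left] using this
  have h3 := ((Equiv.inv Γ).hasSum_iff (f := fun g => ⟪S.b (1, q), P (R.b g)⟫_ℂ *
    ⟪R.b g, P' (S.b (1, q))⟫_ℂ)).2 h2
  convert h3 using 2 with g
  simp only [Function.comp, Equiv.inv_apply]
  have a1 : R.b g⁻¹ = R.L g⁻¹ (R.b 1) := by rw [R.hL]; simp
  have a2 : P (R.b g⁻¹) = S.L g⁻¹ (P (R.b 1)) := by rw [a1, hP]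
  have a3 : S.b (g, q) = S.L g (S.b (1, q)) := by rw [S.hL, smul_fst, mul_one]
  rw [a2, e1, inv_inv, a1, e2, inv_inv, ← hP', ← a3, mul_comm]

end trace

end Pool.Agent.K3h73.TF
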