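import Pool.Agent.K3h73.TF.Res

set_option autoImplicit false
set_option linter.unusedSectionVars false

namespace Pool.Agent.K3h73.TF

open scoped InnerProductSpace ComplexConjugate Topology InnerProduct
open Filter

section equiv

variable {Γ : Type} [Group Γ] {X Y : Type} [MulAction Γ X] [MulAction Γ Y] {H K : Type}
    [NormedAddCommGroup H] [InnerProductSpace ℂ H] [CompleteSpace H]
    [NormedAddCommGroup K] [InnerProductSpace ℂ K] [CompleteSpace K]

theorem Rep.inner_left (R : Rep Γ X H) (g : Γ) (v w : H) :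
    ⟪R.L g v, w⟫_ℂ = ⟪v, R.L g⁻¹ w⟫_ℂ := by
  rw [← R.L_star, ContinuousLinearMap.star_eq_adjoint, ContinuousLinearMap.adjoint_inner_right]

theorem Rep.inner_right (R : Rep Γ X H) (g : Γ) (v w : H) :
    ⟪v, R.L g w⟫_ℂ = ⟪R.L g⁻¹ v, w⟫_ℂ := by
  rw [R.inner_left, inv_inv]

theorem adj_equiv (R : Rep Γ X H) (S : Rep Γ Y K) (T : H →L[ℂ] K)
    (hT : ∀ g v, T (R.L g v) = S.L g (T v)) (g : Γ) (v : K) :
    (ContinuousLinearMap.adjoint T) (S.L g v) = R.L g ((ContinuousLinearMap.adjoint T) v) := by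
  refine ext_inner_left ℂ (fun w => ?_)
  rw [ContinuousLinearMap.adjoint_inner_right, S.inner_right, R.inner_right,
    ContinuousLinearMap.adjoint_inner_right, hT]

theorem IsRes.comm {M Z : K →L[ℂ] K} {δ : ℝ} (h : IsRes M δ Z) (A : K →L[ℂ] K)
    (hA : ∀ v, M (A v) = A (M v)) (v : K) : Z (A v) = A (Z v) := by
  have h1 : A v = M (A (Z v)) + (δ : ℂ) • (A (Z v)) := by
    conv_lhs => rw [← h.right v]
    rw [map_add, map_smul, hA]
  rw [h1, map_add, map_smul]
  exact h.left (A (Z v))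

end equiv

section gram

variable {H K : Type}
    [NormedAddCommGroup H] [InnerProductSpace ℂ H] [CompleteSpace H]
    [NormedAddCommGroup K] [InnerProductSpace ℂ K] [CompleteSpace K]

/-- the operator `∑ T_j T_j^*` -/
noncomputable def gram {J : Type} [Fintype J] (T : J → H →L[ℂ] K) : K →L[ℂ] K :=
  ∑ j, (T j) ∘L (ContinuousLinearMap.adjoint (T j))

theorem gram_apply {J : Type} [Fintype J] (T : J → H →L[ℂ] K) (v : K) :
    gram T v = ∑ j, T j (ContinuousLinearMap.adjoint (T j) v) := by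
  simp [gram]

theorem gram_pos {J : Type} [Fintype J] (T : J → H →L[ℂ] K) : (gram T).IsPositive :=
  ContinuousLinearMap.isPositive_sum _ (fun _ _ => ContinuousLinearMap.isPositive_self_comp_adjoint _)

theorem gram_inner {J : Type} [Fintype J] (T : J → H →L[ℂ] K) (v : K) :
    (⟪v, gram T v⟫_ℂ).re = ∑ j, ‖ContinuousLinearMap.adjoint (T j) v‖ ^ 2 := by
  rw [gram_apply, inner_sum, Complex.re_sum]
  refine Finset.sum_congr rfl (fun j _ => ?_)
  rw [← ContinuousLinearMap.adjoint_inner_left]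
  exact inner_self_eq_norm_sq (𝕜 := ℂ) _

theorem gram_eq_zero {J : Type} [Fintype J] (T : J → H →L[ℂ] K) (v : K) :
    gram T v = 0 ↔ ∀ j, ContinuousLinearMap.adjoint (T j) v = 0 := by
  constructor
  · intro h j
    have h1 := gram_inner T v
    rw [h, inner_zero_right, Complex.zero_re] at h1
    have h2 := (Finset.sum_eq_zero_iff_of_nonneg (fun j _ => by positivity)).1 h1.symm j
      (Finset.mem_univ j)
    simpa using h2
  · intro h
    rw [gram_apply]
    simp [h]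

/-- `T_j^* (∑ T_i T_i^* + δ)⁻¹ T_j ≤ 1` -/
theorem gram_res_le {J : Type} [Fintype J] (T : J → H →L[ℂ] K) {δ : ℝ} (hδ : 0 < δ)
    {Z : K →L[ℂ] K} (hZ : IsRes (gram T) δ Z) (j : J) (v : H) :
    (⟪v, ContinuousLinearMap.adjoint (T j) (Z (T j v))⟫_ℂ).re ≤ ‖v‖ ^ 2 := by
  set u := Z (T j v) with hu
  set α := ‖ContinuousLinearMap.adjoint (T j) u‖ with hα
  have h1 := hZ.energy (T j v)
  rw [← hu, gram_inner] at h1
  have h2 : α ^ 2 ≤ ∑ i, ‖ContinuousLinearMap.adjoint (T i) u‖ ^ 2 :=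
    Finset.single_le_sum (f := fun i => ‖ContinuousLinearMap.adjoint (T i) u‖ ^ 2)
      (fun i _ => by positivity) (Finset.mem_univ j)
  have h3 : (⟪u, T j v⟫_ℂ).re = (⟪v, ContinuousLinearMap.adjoint (T j) u⟫_ℂ).re := by
    rw [ContinuousLinearMap.adjoint_inner_right, ← inner_conj_symm]
    exact Complex.conj_re _
  have h4 : (⟪v, ContinuousLinearMap.adjoint (T j) u⟫_ℂ).re ≤ ‖v‖ * α :=
    (Complex.re_le_norm _).trans (norm_inner_le_norm _ _)
  have h5 : 0 ≤ δ * ‖u‖ ^ 2 := by positivity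
  have h6 : 0 ≤ α := norm_nonneg _
  have h7 : 0 ≤ ‖v‖ := norm_nonneg _
  have h8 : α ^ 2 ≤ ‖v‖ * α := by linarith
  have h9 : α ≤ ‖v‖ := by
    rcases eq_or_lt_of_le h6 with h | h
    · rw [← h]; exact h7
    · exact le_of_mul_le_mul_right (by rw [← sq]; exact h8) h
  nlinarith

end gram

section dim

attribute [local instance] actFst

variable {Γ : Type} [Group Γ] {Q : Type} [Fintype Q] {H K : Type}
    [NormedAddCommGroup H] [InnerProductSpace ℂ H] [CompleteSpace H]
    [NormedAddCommGroup K] [InnerProductSpace ℂ K] [CompleteSpace K]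

theorem gram_comm (R : Rep Γ Γ H) (S : Rep Γ (Γ × Q) K) {J : Type} [Fintype J]
    (T : J → H →L[ℂ] K) (hT : ∀ j g v, T j (R.L g v) = S.L g (T j v)) (g : Γ) (v : K) :
    gram T (S.L g v) = S.L g (gram T v) := by
  rw [gram_apply, gram_apply, map_sum]
  refine Finset.sum_congr rfl (fun j _ => ?_)
  rw [adj_equiv R S (T j) (hT j), hT]

/-- the von Neumann dimension of the closure of the ranges of `T_j` is at most the number of the
indices `j` -/
theorem dim_le (R : Rep Γ Γ H) (S : Rep Γ (Γ × Q) K) {J : Type} [Fintype J]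
    (T : J → H →L[ℂ] K) (hT : ∀ j g v, T j (R.L g v) = S.L g (T j v))
    (E : K →L[ℂ] K) (hE : ∀ v w, ⟪v, E w⟫_ℂ = ⟪E v, w⟫_ℂ) (hE2 : ∀ v, E (E v) = E v)
    (hk : ∀ v, (∀ j, ContinuousLinearMap.adjoint (T j) v = 0) ↔ E v = v) :
    ∑ q, (⟪S.b (1, q), S.b (1, q) - E (S.b (1, q))⟫_ℂ).re ≤ Fintype.card J := by
  have hM := gram_pos T
  set d : ℕ → ℝ := fun n => 1 / ((n : ℝ) + 1) with hd
  have hd0 : ∀ n, 0 < d n := fun n => by positivity
  have hdl : Tendsto d atTop (𝓝 0) := tendsto_one_div_add_atTop_nhds_zero_nat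
  choose Z hZ using fun n => exists_res (gram T) hM (hd0 n)
  have hlim : Tendsto (fun n => ∑ q, (⟪S.b (1, q), S.b (1, q) - (d n : ℂ) • Z n (S.b (1, q))⟫_ℂ).re)
      atTop (𝓝 (∑ q, (⟪S.b (1, q), S.b (1, q) - E (S.b (1, q))⟫_ℂ).re)) := by
    refine tendsto_finsetSum _ (fun q _ => ?_)
    have h1 := IsRes.tendsto hM E hE hE2 (fun v => (gram_eq_zero T v).trans (hk v)) d hd0 hdl Z hZ
      (S.b (1, q))
    exact (Complex.continuous_re.tendsto _).comp
      ((tendsto_const_nhds (x := S.b (1, q))).inner (tendsto_const_nhds.sub h1))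
  refine le_of_tendsto' hlim (fun n => ?_)
  have h1 : ∀ v, v - (d n : ℂ) • Z n v = ∑ j, T j (ContinuousLinearMap.adjoint (T j) (Z n v)) :=
    fun v => by
      rw [← gram_apply, sub_eq_iff_eq_add]
      exact ((hZ n).right v).symm
  have h2 : ∀ j, ∑ q, ⟪S.b (1, q), T j (ContinuousLinearMap.adjoint (T j) (Z n (S.b (1, q))))⟫_ℂ =
      ⟪R.b 1, ContinuousLinearMap.adjoint (T j) (Z n (T j (R.b 1)))⟫_ℂ := fun j =>
    (trace_comm R S (T j) ((ContinuousLinearMap.adjoint (T j)) ∘L (Z n)) (hT j) (fun g v => by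
      rw [ContinuousLinearMap.comp_apply, ContinuousLinearMap.comp_apply,
        (hZ n).comm (S.L g) (fun v => gram_comm R S T hT g v), adj_equiv R S (T j) (hT j)])).symm
  calc ∑ q, (⟪S.b (1, q), S.b (1, q) - (d n : ℂ) • Z n (S.b (1, q))⟫_ℂ).re
      = ∑ q, ∑ j, (⟪S.b (1, q), T j (ContinuousLinearMap.adjoint (T j)
          (Z n (S.b (1, q))))⟫_ℂ).re := by
        refine Finset.sum_congr rfl (fun q _ => ?_)
        rw [h1, inner_sum, Complex.re_sum]
    _ = ∑ j, ∑ q, (⟪S.b (1, q), T j (ContinuousLinearMap.adjoint (T j)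
          (Z n (S.b (1, q))))⟫_ℂ).re := Finset.sum_comm
    _ = ∑ j, (⟪R.b 1, ContinuousLinearMap.adjoint (T j) (Z n (T j (R.b 1)))⟫_ℂ).re := by
        refine Finset.sum_congr rfl (fun j _ => ?_)
        rw [← h2, Complex.re_sum]
    _ ≤ ∑ _j : J, (1 : ℝ) := by
        refine Finset.sum_le_sum (fun j _ => ?_)
        have := gram_res_le T (hd0 n) (hZ n) j (R.b 1)
        rwa [R.b.orthonormal.1 1, one_pow] at this
    _ = Fintype.card J := by simp

end dim

end Pool.Agent.K3h73.TF
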