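import Pool.Agent.K3h73.TF.Stm

set_option autoImplicit false

namespace Pool.Agent.K3h73.TF

open FreeGroup

section tree

theorem toWord_of_mul_a (i : Bool) (h : G) (t : List (Bool × Bool))
    (hh : toWord h = (i, false) :: t) : toWord (of i * h) = t := by
  rw [toWord_mul, toWord_of, hh, List.singleton_append]
  have h1 : reduce ((i, false) :: t) = (i, false) :: t := by rw [← hh, reduce_toWord]
  rw [reduce.cons, h1]
  simp

theorem toWord_of_mul_b (i : Bool) (h : G) (hh : ∀ t, toWord h ≠ (i, false) :: t) :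
    toWord (of i * h) = (i, true) :: toWord h := by
  rw [toWord_mul, toWord_of, List.singleton_append, reduce.cons, reduce_toWord]
  rcases hL : toWord h with _ | ⟨⟨j, c⟩, t⟩
  · rfl
  · have h2 : ¬ (i = j ∧ true = !c) := by
      rintro ⟨rfl, h3⟩
      have : c = false := by revert h3; cases c <;> simp
      subst this
      exact hh t hL
    simp only
    rw [if_neg h2]

/-- the projection onto the ball of radius `n` -/
def pr (n : ℕ) (h : G) : G := mk ((toWord h).drop ((toWord h).length - n))

theorem pr_norm (n : ℕ) (h : G) : (toWord (pr n h)).length ≤ n := by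
  refine (norm_mk_le (L₁ := (toWord h).drop ((toWord h).length - n))).trans ?_
  rw [List.length_drop]; omega

theorem pr_self (n : ℕ) (h : G) (hh : (toWord h).length ≤ n) : pr n h = h := by
  rw [pr, Nat.sub_eq_zero_of_le hh, List.drop_zero, mk_toWord]

theorem drop_cons_aux {α : Type} (x : α) (t : List α) (n : ℕ) (h : n ≤ t.length) :
    (x :: t).drop ((x :: t).length - n) = t.drop (t.length - n) := by
  rw [List.length_cons, show t.length + 1 - n = (t.length - n) + 1 by omega, List.drop_succ_cons]

theorem pr_step (n : ℕ) (i : Bool) (h : G)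
    (hh : n < (toWord h).length ∨ n < (toWord (of i * h)).length) :
    pr n (of i * h) = pr n h := by
  by_cases hc : ∃ t, toWord h = (i, false) :: t
  · obtain ⟨t, ht⟩ := hc
    have h1 := toWord_of_mul_a i h t ht
    rw [ht, h1] at hh
    have h2 : n ≤ t.length := by
      rcases hh with hh | hh
      · rw [List.length_cons] at hh; omega
      · exact hh.le
    rw [pr, pr, h1, ht, drop_cons_aux _ _ _ h2]
  · push Not at hc
    have h1 := toWord_of_mul_b i h hc
    rw [h1] at hh
    have h2 : n ≤ (toWord h).length := by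
      rcases hh with hh | hh
      · exact hh.le
      · rw [List.length_cons] at hh; omega
    rw [pr, pr, h1, drop_cons_aux _ _ _ h2]

/-- the edge labels: the endpoint of the edge `h — of i * h` which is farther from `1` -/
noncomputable def far (j : Bool × G) : G :=
  open Classical in if ∃ t, toWord j.2 = (j.1, false) :: t then j.2 else of j.1 * j.2

theorem far_mem (j : Bool × G) : far j = j.2 ∨ far j = of j.1 * j.2 := by
  unfold far
  split_ifs <;> simp

theorem far_a (j : Bool × G) (h : ∃ t, toWord j.2 = (j.1, false) :: t) :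
    far j = j.2 ∧ ∃ t, toWord (far j) = (j.1, false) :: t := by
  have : far j = j.2 := by unfold far; rw [if_pos h]
  exact ⟨this, by rw [this]; exact h⟩

theorem far_b (j : Bool × G) (h : ¬ ∃ t, toWord j.2 = (j.1, false) :: t) :
    far j = of j.1 * j.2 ∧ ∃ t, toWord (far j) = (j.1, true) :: t := by
  have : far j = of j.1 * j.2 := by unfold far; rw [if_neg h]
  refine ⟨this, toWord j.2, ?_⟩
  rw [this]
  push Not at h
  exact toWord_of_mul_b _ _ h

theorem far_ne_one (j : Bool × G) : far j ≠ 1 := by
  intro h1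
  by_cases h : ∃ t, toWord j.2 = (j.1, false) :: t
  · obtain ⟨t, ht⟩ := (far_a j h).2
    rw [h1, toWord_one] at ht
    cases ht
  · obtain ⟨t, ht⟩ := (far_b j h).2
    rw [h1, toWord_one] at ht
    cases ht

theorem far_inj : Function.Injective far := by
  intro j k hjk
  by_cases h : ∃ t, toWord j.2 = (j.1, false) :: t <;>
  by_cases h' : ∃ t, toWord k.2 = (k.1, false) :: t
  · obtain ⟨e1, t, ht⟩ := far_a j h
    obtain ⟨e2, t', ht'⟩ := far_a k h'
    rw [hjk, ht'] at ht
    have h1 : k.1 = j.1 := by
      have := (List.cons.inj ht).1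
      exact (Prod.mk.inj this).1
    exact Prod.ext h1.symm (by rw [← e1, ← e2, hjk])
  · obtain ⟨e1, t, ht⟩ := far_a j h
    obtain ⟨e2, t', ht'⟩ := far_b k h'
    rw [hjk, ht'] at ht
    have := (Prod.mk.inj (List.cons.inj ht).1).2
    cases this
  · obtain ⟨e1, t, ht⟩ := far_b j h
    obtain ⟨e2, t', ht'⟩ := far_a k h'
    rw [hjk, ht'] at ht
    have := (Prod.mk.inj (List.cons.inj ht).1).2
    cases this
  · obtain ⟨e1, t, ht⟩ := far_b j h
    obtain ⟨e2, t', ht'⟩ := far_b k h'
    rw [hjk, ht'] at ht
    have h1 : k.1 = j.1 := by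
      have := (List.cons.inj ht).1
      exact (Prod.mk.inj this).1
    have h2 : of j.1 * j.2 = of k.1 * k.2 := by rw [← e1, ← e2, hjk]
    rw [h1] at h2
    exact Prod.ext h1.symm (mul_left_cancel h2)

/-- the finite subtree -/
theorem exists_tree (F : Finset G) : ∃ (Λ : Finset G) (p : G → Λ), (1 : G) ∈ Λ ∧ F ⊆ Λ ∧
    (∀ i h, of i * h ∈ F → h ∈ Λ) ∧ (∀ q : Λ, p q = q) ∧
    (∀ i h, (h ∉ Λ ∨ of i * h ∉ Λ) → p (of i * h) = p h) := by
  classical
  obtain ⟨n, hn⟩ : ∃ n : ℕ, ∀ h ∈ F, (toWord h).length + 1 ≤ n := by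
    refine ⟨F.sup (fun h => (toWord h).length + 1), fun h hh => ?_⟩
    exact Finset.le_sup (f := fun h => (toWord h).length + 1) hh
  have hfin : Set.Finite {x : G | (toWord x).length ≤ n} :=
    (List.finite_length_le (Bool × Bool) n).preimage (toWord_injective.injOn)
  have hmem : ∀ x, x ∈ hfin.toFinset ↔ (toWord x).length ≤ n := fun x => by simp
  refine ⟨hfin.toFinset, fun h => ⟨pr n h, (hmem _).2 (pr_norm n h)⟩, ?_, ?_, ?_, ?_, ?_⟩
  · rw [hmem, toWord_one]; simp
  · intro h hh
    rw [hmem]
    have := hn h hh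
    omega
  · intro i h hh
    rw [hmem]
    have h1 := hn _ hh
    have h2 : h = (of i)⁻¹ * (of i * h) := by group
    have h3 := norm_mul_le (of i)⁻¹ (of i * h)
    rw [← h2, norm_inv_eq, norm_of] at h3
    unfold FreeGroup.norm at h3
    omega
  · intro q
    exact Subtype.ext (pr_self n q.1 ((hmem _).1 q.2))
  · intro i h hh
    rw [hmem, hmem, not_le, not_le] at hh
    exact Subtype.ext (pr_step n i h hh)

end tree

end Pool.Agent.K3h73.TF
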