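import Pool.Agent.K3h73.TF.Dim
import Pool.Agent.K3h73.TF.Tree

set_option autoImplicit false
set_option linter.unusedSectionVars false

namespace Pool.Agent.K3h73.TF

open scoped InnerProductSpace ComplexConjugate Topology InnerProduct
open Filter FreeGroup

section aux

variable {H K : Type}
    [NormedAddCommGroup H] [InnerProductSpace ℂ H] [CompleteSpace H]
    [NormedAddCommGroup K] [InnerProductSpace ℂ K] [CompleteSpace K]

theorem exists_kerproj (M : K →L[ℂ] K) : ∃ P : K →L[ℂ] K, (∀ v w, ⟪v, P w⟫_ℂ = ⟪P v, w⟫_ℂ) ∧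
    (∀ v, P (P v) = P v) ∧ (∀ v, M v = 0 ↔ P v = v) ∧ ∀ v, ‖P v‖ ≤ ‖v‖ := by
  let U : Submodule ℂ K := LinearMap.ker (M : K →ₗ[ℂ] K)
  have hU : IsClosed (U : Set K) := M.isClosed_ker
  have : CompleteSpace U := hU.completeSpace_coe
  refine ⟨U.starProjection, fun v w => ?_, fun v => ?_, fun v => ?_, fun v => ?_⟩
  · exact (Submodule.starProjection_isSymmetric (K := U) v w).symm
  · exact (Submodule.starProjection_eq_self_iff).2 (Submodule.starProjection_apply_mem U v)
  · rw [Submodule.starProjection_eq_self_iff]; rfl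
  · calc ‖U.starProjection v‖ ≤ ‖U.starProjection‖ * ‖v‖ := ContinuousLinearMap.le_opNorm _ _
      _ ≤ 1 * ‖v‖ := by gcongr; exact Submodule.starProjection_norm_le U
      _ = ‖v‖ := one_mul _

theorem re_inner_symm (v w : K) : (⟪v, w⟫_ℂ).re = (⟪w, v⟫_ℂ).re := by
  rw [← inner_conj_symm]; exact Complex.conj_re _

end aux

section fin

attribute [local instance] actFst

variable {Q : Type} [Fintype Q] {H K : Type}
    [NormedAddCommGroup H] [InnerProductSpace ℂ H] [CompleteSpace H]
    [NormedAddCommGroup K] [InnerProductSpace ℂ K] [CompleteSpace K]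

/-- an operator which commutes with the translations by the generators commutes with all of them -/
theorem comm_of_gen {X : Type} [MulAction G X] (S : Rep G X K) (A : K →L[ℂ] K)
    (h : ∀ i v, A (S.L (of i) v) = S.L (of i) (A v)) (g : G) (v : K) :
    A (S.L g v) = S.L g (A v) := by
  induction g using FreeGroup.induction_on generalizing v with
  | C1 => rw [S.L_one]; rfl
  | of i => exact h i v
  | inv_of i hi =>
    have h1 := hi (S.L (of i)⁻¹ v)
    have h2 : ∀ w, S.L (of i) (S.L (of i)⁻¹ w) = w := fun w => by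
      have := congrArg (fun f : K →L[ℂ] K => f w) (S.L_mul_inv (of i))
      simpa using this
    have h3 : ∀ w, S.L (of i)⁻¹ (S.L (of i) w) = w := fun w => by
      have := congrArg (fun f : K →L[ℂ] K => f w) (S.L_inv_mul (of i))
      simpa using this
    rw [h2] at h1
    change A (S.L (of i)⁻¹ v) = S.L (of i)⁻¹ (A v)
    rw [h1, h3]
  | mul x y hx hy =>
    rw [S.L_mul, mul_apply_eq_comp, mul_apply_eq_comp, hx, hy]

/-- a star-commutation -/
theorem adj_inter {A : H →L[ℂ] H} {B : K →L[ℂ] K} (hA2 : A * star A = 1)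
    (hB1 : star B * B = 1) (Θ : H →L[ℂ] K)
    (h : ∀ v, Θ (A v) = B (Θ v)) (w : K) :
    ContinuousLinearMap.adjoint Θ (B w) = A (ContinuousLinearMap.adjoint Θ w) := by
  have a1 : ∀ v, A (star A v) = v := fun v => by
    have := congrArg (fun f : H →L[ℂ] H => f v) hA2
    simpa using this
  have b1 : ∀ v, star B (B v) = v := fun v => by
    have := congrArg (fun f : K →L[ℂ] K => f v) hB1
    simpa using this
  refine ext_inner_left ℂ (fun x => ?_)
  have h1 : ⟪x, A (ContinuousLinearMap.adjoint Θ w)⟫_ℂ = ⟪Θ (star A x), w⟫_ℂ := by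
    rw [← ContinuousLinearMap.adjoint_inner_right, ContinuousLinearMap.star_eq_adjoint,
      ContinuousLinearMap.adjoint_inner_left]
  have h2 : ⟪x, ContinuousLinearMap.adjoint Θ (B w)⟫_ℂ = ⟪B (Θ (star A x)), B w⟫_ℂ := by
    rw [ContinuousLinearMap.adjoint_inner_right, ← h, a1]
  rw [h1, h2, ← ContinuousLinearMap.adjoint_inner_right, ← ContinuousLinearMap.star_eq_adjoint, b1]

end fin

end Pool.Agent.K3h73.TF
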