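import Pool.Agent.K3h73.TF.Ovl3

set_option autoImplicit false
set_option linter.unusedSectionVars false

namespace Pool.Agent.K3h73.TF

open scoped InnerProductSpace ComplexConjugate Topology InnerProduct
open Filter FreeGroup

section fins

attribute [local instance] actFst

variable {H K : Type}
    [NormedAddCommGroup H] [InnerProductSpace ℂ H] [CompleteSpace H]
    [NormedAddCommGroup K] [InnerProductSpace ℂ K] [CompleteSpace K]

/-- an equivariant operator with a prescribed finitely supported value at `1` -/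
theorem exists_T {Q : Type} (R : Rep G G H) (S : Rep G (G × Q) K) {z : K}
    (hz : z ∈ Submodule.span ℂ (Set.range S.b)) :
    ∃ T : H →L[ℂ] K, ∀ g, T (R.b g) = S.L g z := by
  induction hz using Submodule.span_induction with
  | mem x hx =>
    obtain ⟨⟨x, q⟩, rfl⟩ := hx
    have ho : Orthonormal ℂ (fun g : G => S.b (g * x, q)) :=
      S.b.orthonormal.comp (fun g : G => (g * x, q)) (fun g h hgh =>
        mul_right_cancel (congrArg Prod.fst hgh))
    exact ⟨iso R.b _ ho, fun g => by rw [iso_apply, S.hL, smul_fst]⟩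
  | zero => exact ⟨0, fun g => by simp⟩
  | add x y _ _ hx hy =>
    obtain ⟨T, hT⟩ := hx
    obtain ⟨T', hT'⟩ := hy
    exact ⟨T + T', fun g => by rw [add_apply, hT, hT', map_add]⟩
  | smul a x _ hx =>
    obtain ⟨T, hT⟩ := hx
    exact ⟨a • T, fun g => by rw [smul_apply, hT, map_smul]⟩

/-- an operator defined on the basis by translations is equivariant -/
theorem equiv_of_basis {X : Type} [MulAction G X] (R : Rep G G H) (S : Rep G X K) (T : H →L[ℂ] K)
    {z : K} (hT : ∀ g, T (R.b g) = S.L g z) (g : G) (v : H) : T (R.L g v) = S.L g (T v) := by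
  have h : T ∘L R.L g = S.L g ∘L T := ext_basis R.b (fun x => by
    change T (R.L g (R.b x)) = S.L g (T (R.b x))
    rw [R.hL, smul_eq_mul, hT, hT, S.L_mul]
    rfl)
  exact congrArg (fun f : H →L[ℂ] K => f v) h

theorem comm_proj {X : Type} [MulAction G X] (S : Rep G X K) {M E : K →L[ℂ] K}
    (hM : ∀ g v, M (S.L g v) = S.L g (M v)) (hE : ∀ v w, ⟪v, E w⟫_ℂ = ⟪E v, w⟫_ℂ)
    (hE2 : ∀ v, E (E v) = E v) (hk : ∀ v, M v = 0 ↔ E v = v) (g : G) (v : K) :
    E (S.L g v) = S.L g (E v) := by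
  have h1 : ∀ g v, E (S.L g (E v)) = S.L g (E v) := fun g v => by
    refine (hk _).1 ?_
    rw [hM, (hk _).2 (hE2 v), map_zero]
  have h2 : E (S.L g (v - E v)) = 0 := by
    refine ext_inner_left ℂ (fun x => ?_)
    rw [hE, S.inner_right, ← h1, ← hE, map_sub, hE2, sub_self, inner_zero_right, inner_zero_right]
  have h3 : S.L g v = S.L g (v - E v) + S.L g (E v) := by rw [← map_add, sub_add_cancel]
  rw [h3, map_add, h2, h1, zero_add]

/-- **The finite-support case of the free Kato–Rosenblum theorem.** -/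
theorem fin_support (hmt : St_mt) (R : Rep G G H) (W : Bool → H →L[ℂ] H) (F : Finset G)
    (ν : Bool → ℝ) (hW1 : ∀ s, star (W s) * W s = 1) (hW2 : ∀ s, W s * star (W s) = 1)
    (hWF : ∀ s h, h ∉ F → W s (R.b h) = R.b h) (hν : ∀ s, Nuc (W s - 1) (ν s))
    {η : ℝ} (hη : 0 < η) :
    ∃ Φ : H →L[ℂ] H, ‖Φ‖ ≤ 1 ∧ (∀ i v, Φ (W i (R.L (of i) v)) = R.L (of i) (Φ v)) ∧
      1 - ∑ s, 2 * ν s - η ≤ (⟪R.b 1, Φ (R.b 1)⟫_ℂ).re := by
  classical
  obtain ⟨Λ, p, h1Λ, hFΛ, hFΛ', hpq, hpe⟩ := exists_tree F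
  let K' := lp (fun _ : G × Λ => ℂ) 2
  let b₂ : HilbertBasis (G × Λ) ℂ K' := HilbertBasis.ofRepr (LinearIsometryEquiv.refl ℂ _)
  let S : Rep G (G × Λ) K' := Rep.ofBasis b₂
  have hbL : ∀ i k, R.b (of i * k) = R.L (of i) (R.b k) := fun i k => by rw [R.hL]; rfl
  have hSL : ∀ g u q, S.b (g * u, q) = S.L g (S.b (u, q)) := fun g u q => by
    rw [S.hL, smul_fst]
  let ι₀ : H →L[ℂ] K' := iso R.b (fun h => S.b (h, p h)) (S.b.orthonormal.comp _
    (fun g h hgh => congrArg Prod.fst hgh))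
  have hι : ∀ h, ι₀ (R.b h) = S.b (h, p h) := fun h => iso_apply _ _ _ _
  let κ₀ : H →L[ℂ] K' := iso R.b (fun h => S.b (h, p 1)) (S.b.orthonormal.comp _
    (fun g h hgh => congrArg Prod.fst hgh))
  have hκ : ∀ h, κ₀ (R.b h) = S.b (h, p 1) := fun h => iso_apply _ _ _ _
  let z : Bool × G → K' := fun j => ι₀ (W j.1 (R.b (of j.1 * j.2))) - S.b (of j.1 * j.2, p j.2)
  let Jf : Finset (Bool × G) := (Finset.univ ×ˢ Λ).filter (fun j => of j.1 * j.2 ∈ Λ)
  have hJf : ∀ j, j ∈ Jf ↔ j.2 ∈ Λ ∧ of j.1 * j.2 ∈ Λ := fun j => by simp [Jf]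
  -- the vectors `z j` are finitely supported
  have hWspan : ∀ i h, W i (R.b h) ∈ Submodule.span ℂ (Set.range R.b) := by
    intro i h
    have h1 : W i (R.b h) ∈ Submodule.span ℂ (R.b '' ((insert h F : Finset G) : Set G)) := by
      refine mem_span_of_finite R.b (insert h F) (fun g hg => ?_)
      rw [Finset.mem_insert, not_or] at hg
      have e1 : R.b g = W i (R.b g) := (hWF i g hg.2).symm
      have e2 : star (W i) (W i (R.b g)) = R.b g := by
        have := congrArg (fun f : H →L[ℂ] H => f (R.b g)) (hW1 i)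
        simpa using this
      rw [e1, ← ContinuousLinearMap.adjoint_inner_left, ← ContinuousLinearMap.star_eq_adjoint, e2]
      exact R.b.orthonormal.2 hg.1
    exact Submodule.span_mono (Set.image_subset_range _ _) h1
  have hιspan : ∀ v ∈ Submodule.span ℂ (Set.range R.b),
      ι₀ v ∈ Submodule.span ℂ (Set.range S.b) := by
    intro v hv
    induction hv using Submodule.span_induction with
    | mem x hx =>
      obtain ⟨x, rfl⟩ := hx
      rw [hι]; exact Submodule.subset_span ⟨_, rfl⟩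
    | zero => rw [map_zero]; exact Submodule.zero_mem _
    | add x y _ _ hx hy => rw [map_add]; exact Submodule.add_mem _ hx hy
    | smul a x _ hx => rw [map_smul]; exact Submodule.smul_mem _ _ hx
  have hzspan : ∀ j, z j ∈ Submodule.span ℂ (Set.range S.b) := fun j =>
    Submodule.sub_mem _ (hιspan _ (hWspan _ _)) (Submodule.subset_span ⟨_, rfl⟩)
  choose T hT using fun j => exists_T R S (hzspan j)
  let TJ : Jf → H →L[ℂ] K' := fun j => T j.1
  have hTeq : ∀ (j : Jf) g v, TJ j (R.L g v) = S.L g (TJ j v) := fun j g v =>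
    equiv_of_basis R S (TJ j) (hT j.1) g v
  obtain ⟨E, hE1, hE2, hE3, hE4⟩ := exists_kerproj (gram TJ)
  have hEL : ∀ g v, E (S.L g v) = S.L g (E v) := fun g v =>
    comm_proj S (gram_comm R S TJ hTeq) hE1 hE2 hE3 g v
  have hEz : ∀ j, E (z j) = 0 := by
    intro j
    by_cases hj : j ∈ Jf
    · have e1 : z j = TJ ⟨j, hj⟩ (R.b 1) := by
        change z j = T j (R.b 1)
        rw [hT, S.L_one]; rfl
      refine ext_inner_left ℂ (fun x => ?_)
      have e2 := (gram_eq_zero TJ (E x)).1 ((hE3 _).2 (hE2 x)) ⟨j, hj⟩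
      rw [hE1, e1, ← ContinuousLinearMap.adjoint_inner_left, e2, inner_zero_left,
        inner_zero_right]
    · rw [hJf] at hj
      have e1 : j.2 ∉ Λ ∨ of j.1 * j.2 ∉ Λ := by tauto
      have e2 : of j.1 * j.2 ∉ F := fun h => hj ⟨hFΛ' _ _ h, hFΛ h⟩
      have e3 : z j = 0 := by
        change ι₀ (W j.1 (R.b (of j.1 * j.2))) - S.b (of j.1 * j.2, p j.2) = 0
        rw [hWF _ _ e2, hι, hpe _ _ e1, sub_self]
      rw [e3, map_zero]
  set Θ : H →L[ℂ] K' := E ∘L ι₀ with hΘ
  have hTh : ∀ i v, Θ (W i (R.L (of i) v)) = S.L (of i) (Θ v) := by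
    intro i v
    have h1 : Θ ∘L (W i ∘L R.L (of i)) = S.L (of i) ∘L Θ := ext_basis R.b (fun h => by
      have e1 := hEz (i, h)
      have e2 : z (i, h) = ι₀ (W i (R.b (of i * h))) - S.b (of i * h, p h) := rfl
      rw [e2, map_sub, sub_eq_zero] at e1
      change E (ι₀ (W i (R.L (of i) (R.b h)))) = S.L (of i) (E (ι₀ (R.b h)))
      rw [← hbL, e1, hSL, hEL, hι])
    exact congrArg (fun f : H →L[ℂ] K' => f v) h1
  have hset : Setup R S W F ν E Θ (E ∘L κ₀) := by
    refine ⟨hW1, hW2, hWF, hν, hE1, hTh, ?_, ?_, ?_, ?_⟩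
    · intro g v
      have h1 : κ₀ ∘L R.L g = S.L g ∘L κ₀ := ext_basis R.b (fun h => by
        change κ₀ (R.L g (R.b h)) = S.L g (κ₀ (R.b h))
        rw [R.hL, smul_eq_mul, hκ, hκ, hSL])
      have h2 := congrArg (fun f : H →L[ℂ] K' => f v) h1
      change E (κ₀ (R.L g v)) = S.L g (E (κ₀ v))
      have h3 : κ₀ (R.L g v) = S.L g (κ₀ v) := h2
      rw [h3, hEL]
    · change E (κ₀ (R.b 1)) = E (ι₀ (R.b 1))
      rw [hκ, hι]
    · intro v hv
      -- the kernel of `Θ^*` is invariant
      have hadj : ∀ i w, ContinuousLinearMap.adjoint Θ (S.L (of i) w) =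
          W i (R.L (of i) (ContinuousLinearMap.adjoint Θ w)) := by
        intro i w
        have h1 : (W i * R.L (of i)) * star (W i * R.L (of i)) = 1 := by
          rw [star_mul, mul_assoc, ← mul_assoc (R.L (of i)), R.self_mul_star, one_mul, hW2]
        exact adj_inter (A := W i * R.L (of i)) (B := S.L (of i)) h1 (S.star_mul_self _) Θ
          (fun v => hTh i v) w
      have hTT : ∀ g v, Θ (ContinuousLinearMap.adjoint Θ (S.L g v)) =
          S.L g (Θ (ContinuousLinearMap.adjoint Θ v)) := fun g v =>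
        comm_of_gen S (Θ ∘L ContinuousLinearMap.adjoint Θ) (fun i v => by
          change Θ (ContinuousLinearMap.adjoint Θ (S.L (of i) v)) =
            S.L (of i) (Θ (ContinuousLinearMap.adjoint Θ v))
          rw [hadj, hTh]) g v
      have hker : ∀ g, ContinuousLinearMap.adjoint Θ (S.L g v) = 0 := by
        intro g
        have e1 : ⟪ContinuousLinearMap.adjoint Θ (S.L g v),
            ContinuousLinearMap.adjoint Θ (S.L g v)⟫_ℂ = 0 := by
          rw [ContinuousLinearMap.adjoint_inner_left, hTT, hv, map_zero, map_zero,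
            inner_zero_right]
        exact inner_self_eq_zero.1 e1
      refine basis_eq_zero S.b (fun x => ?_)
      obtain ⟨u, q⟩ := x
      have e1 : S.b (u, q) = S.L (u * (q.1)⁻¹) (ι₀ (R.b q.1)) := by
        rw [hι, hpq, ← hSL, inv_mul_cancel_right]
      have e2 : E (ι₀ (R.b q.1)) = Θ (R.b q.1) := rfl
      rw [hE1, e1, hEL, e2, S.inner_left, ← ContinuousLinearMap.adjoint_inner_right, hker,
        inner_zero_right]
    · have h1 := dim_le R S TJ hTeq E hE1 hE2 (fun v => (gram_eq_zero TJ v).symm.trans (hE3 v))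
      refine h1.trans ?_
      have h2 : Jf.card ≤ (Λ.erase 1).card := by
        refine Finset.card_le_card_of_injOn far (fun j hj => ?_) (far_inj.injOn)
        have hj' := (hJf j).1 hj
        refine Finset.mem_coe.2 (Finset.mem_erase.2 ⟨far_ne_one j, ?_⟩)
        rcases far_mem j with h | h
        · rw [h]; exact hj'.1
        · rw [h]; exact hj'.2
      rw [Finset.card_erase_of_mem h1Λ] at h2
      have h3 : 1 ≤ Λ.card := Finset.card_pos.2 ⟨1, h1Λ⟩
      rw [Fintype.card_coe, Fintype.card_coe]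
      have h4 : Jf.card + 1 ≤ Λ.card := by omega
      have h5 : ((Jf.card + 1 : ℕ) : ℝ) ≤ Λ.card := by exact_mod_cast h4
      push_cast at h5
      linarith
  exact hset.overlap hmt hE2 hη

end fins

end Pool.Agent.K3h73.TF
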