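import Pool.Agent.K3h73.TF.FinS

set_option autoImplicit false
set_option linter.unusedSectionVars false

namespace Pool.Agent.K3h73.TF

open scoped InnerProductSpace ComplexConjugate Topology InnerProduct
open Filter FreeGroup

/-- **The free Kato–Rosenblum theorem**, for small trace-class perturbations. -/
theorem kato_rosenblum (hmt : St_mt) (hcay : St_cay) (hwlim : St_wlim) {H : Type}
    [NormedAddCommGroup H] [InnerProductSpace ℂ H] [CompleteSpace H]
    (R : Rep G G H) (W : Bool → H →L[ℂ] H) (c : ℝ) (hc : c ≤ 1 / 5)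
    (hW1 : ∀ s, star (W s) * W s = 1) (hW2 : ∀ s, W s * star (W s) = 1)
    (hν : ∀ s, Nuc (W s - 1) c) :
    ∃ Θ : H →L[ℂ] H, Θ ≠ 0 ∧ ∀ i v, Θ (W i (R.L (of i) v)) = R.L (of i) (Θ v) := by
  classical
  have hc0 : 0 ≤ c := (hν true).nonneg
  choose Wm hWm hWlim using fun s => hcay H R.b (W s) c (hW1 s) (hW2 s) (hν s) (by linarith)
  have hc' : 2 * c / (2 - c) ≤ 2 / 9 := by
    rw [div_le_iff₀ (by linarith)]; linarith
  have hex : ∀ m, ∃ Φ : H →L[ℂ] H, ‖Φ‖ ≤ 1 ∧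
      (∀ i v, Φ (Wm i m (R.L (of i) v)) = R.L (of i) (Φ v)) ∧
      1 / 18 ≤ (⟪R.b 1, Φ (R.b 1)⟫_ℂ).re := by
    intro m
    choose F hF using fun s => (hWm s m).2.2.2
    obtain ⟨Φ, h1, h2, h3⟩ := fin_support hmt R (fun s => Wm s m) (F true ∪ F false)
      (fun _ => 2 / 9) (fun s => (hWm s m).1) (fun s => (hWm s m).2.1)
      (fun s h hh => hF s h (by
        rw [Finset.mem_union, not_or] at hh
        cases s
        · exact hh.2
        · exact hh.1))
      (fun s => ((hWm s m).2.2.1).mono hc') (η := 1 / 18) (by norm_num)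
    refine ⟨Φ, h1, h2, le_trans ?_ h3⟩
    rw [Finset.sum_const, Finset.card_univ, Fintype.card_bool]
    norm_num
  choose Φ hΦ1 hΦ2 hΦ3 using hex
  obtain ⟨Θ, hΘ1, hΘ2⟩ := hwlim H Φ hΦ1
  refine ⟨Θ, ?_, ?_⟩
  · rintro rfl
    have h1 := (Complex.continuous_re.tendsto _).comp (hΘ2 (R.b 1) (R.b 1))
    have h2 : (1 : ℝ) / 18 ≤ (⟪R.b 1, (0 : H →L[ℂ] H) (R.b 1)⟫_ℂ).re :=
      ge_of_tendsto' h1 hΦ3
    rw [zero_apply, inner_zero_right, Complex.zero_re] at h2
    norm_num at h2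
  · intro i v
    refine ext_inner_left ℂ (fun w => ?_)
    set x := R.L (of i) v with hx
    have h1 := hΘ2 (W i x) w
    have h2 := hΘ2 v (R.L (of i)⁻¹ w)
    have h3 : Tendsto (fun m => ⟪w, Φ m (Wm i m x - W i x)⟫_ℂ)
        (hyperfilter ℕ : Filter ℕ) (𝓝 0) := by
      have h4 : Tendsto (fun m => ‖w‖ * ‖Wm i m x - W i x‖) atTop (𝓝 0) := by
        have := (tendsto_iff_norm_sub_tendsto_zero.1 (hWlim i x)).const_mul ‖w‖
        simpa using this
      refine squeeze_zero_norm (fun m => ?_) (h4.mono_left Nat.hyperfilter_le_atTop)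
      refine (norm_inner_le_norm _ _).trans ?_
      gcongr
      calc ‖Φ m (Wm i m x - W i x)‖ ≤ ‖Φ m‖ * ‖Wm i m x - W i x‖ := ContinuousLinearMap.le_opNorm _ _
        _ ≤ 1 * ‖Wm i m x - W i x‖ := by gcongr; exact hΦ1 m
        _ = _ := one_mul _
    have h5 := h1.add h3
    have h6 : (fun m => ⟪w, Φ m (W i x)⟫_ℂ + ⟪w, Φ m (Wm i m x - W i x)⟫_ℂ) =
        fun m => ⟪R.L (of i)⁻¹ w, Φ m v⟫_ℂ := by
      funext m
      rw [← inner_add_right, ← map_add, add_sub_cancel, hx, hΦ2, R.inner_right]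
    rw [h6, add_zero] at h5
    rw [R.inner_right]
    exact tendsto_nhds_unique h5 h2

end Pool.Agent.K3h73.TF
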