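import Pool.Agent.K3h73.TF.Asm

set_option autoImplicit false
set_option linter.unusedSectionVars false

namespace Pool.Agent.K3h73.TF

open scoped InnerProductSpace ComplexConjugate Topology InnerProduct
open Filter FreeGroup

section mai

variable {H : Type} [NormedAddCommGroup H] [InnerProductSpace ℂ H] [CompleteSpace H]

/-- the operator `T` and the main estimate, for nuclear perturbations -/
theorem main_rep (R : Rep G G H) : ∃ T : H →L[ℂ] H,
    IsTypeII1Factor (Set.centralizer (Set.centralizer {T, star T})) ∧
      ∀ (K : H →L[ℂ] H) (c : ℝ), Nuc K c → c ≤ 1 / 20 → ¬ IsSumOfIrreducibles (T + K) := by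
  choose A hA1 hA2 hA3 hA4 using fun i : Bool => K3h9.TF.t_arg H (R.L (of i))
    (R.star_mul_self _) (R.self_mul_star _) (no_neg_one R i)
  set T := A true + Complex.I • A false with hT
  have hsT : star T = A true - Complex.I • A false := by
    rw [hT, star_add, star_smul, hA1, hA1]
    simp [sub_eq_add_neg]
  -- the commutant
  have hcent : Set.centralizer {T, star T} = Set.centralizer (Set.range R.L) := by
    ext X
    rw [Set.mem_centralizer_iff, Set.mem_centralizer_iff]
    constructor
    · intro hX
      have h1 : T * X = X * T := hX T (by simp)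
      have h2 : star T * X = X * star T := hX (star T) (by simp)
      have e1 : A true = (1 / 2 : ℂ) • (T + star T) := by
        rw [hsT, hT]
        rw [show A true + Complex.I • A false + (A true - Complex.I • A false) =
          (2 : ℂ) • A true by rw [two_smul]; abel, smul_smul]
        norm_num
      have e2 : A false = (-Complex.I / 2 : ℂ) • (T - star T) := by
        rw [hsT, hT]
        rw [show A true + Complex.I • A false - (A true - Complex.I • A false) =
          (2 * Complex.I : ℂ) • A false by rw [mul_smul, two_smul]; abel, smul_smul]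
        have : (-Complex.I / 2 * (2 * Complex.I) : ℂ) = 1 := by
          have := Complex.I_mul_I
          linear_combination -this
        rw [this, one_smul]
      have h3 : ∀ i, X * A i = A i * X := by
        intro i
        cases i
        · rw [e2, mul_smul_comm, smul_mul_assoc, mul_sub, sub_mul, h1, h2]
        · rw [e1, mul_smul_comm, smul_mul_assoc, mul_add, add_mul, h1, h2]
      have h4 : ∀ i, X * R.L (of i) = R.L (of i) * X := fun i => comm_U (hA1 i) (hA4 i) (h3 i)
      rintro _ ⟨g, rfl⟩
      ext v
      exact (comm_of_gen R X (fun i v => congrArg (fun f : H →L[ℂ] H => f v) (h4 i)) g v).symm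
    · intro hX
      have h3 : ∀ i, X * A i = A i * X := fun i => hA3 i X (hX _ ⟨of i, rfl⟩).symm
      intro m hm
      rcases hm with rfl | hm
      · rw [hT, add_mul, mul_add, h3, smul_mul_assoc, mul_smul_comm, h3]
      · rw [Set.mem_singleton_iff.1 hm, hsT, sub_mul, mul_sub, h3, smul_mul_assoc, mul_smul_comm, h3]
  refine ⟨T, ?_, ?_⟩
  · rw [hcent]
    exact K3h49.TF.t_fac H R.b R.L (fun g h => R.hL g h)
  intro K c hK hc ⟨ι, _, V, hV, horth, htop⟩
  have hc0 := hK.nonneg
  have hKs : Nuc (star K) c := hK.adjoint
  set k : Bool → H →L[ℂ] H := fun i => if i then (1 / 2 : ℂ) • (K + star K) else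
    (-Complex.I / 2 : ℂ) • (K - star K) with hk
  have hk1 : ∀ i, star (k i) = k i := by
    intro i
    cases i
    · change star ((-Complex.I / 2 : ℂ) • (K - star K)) = (-Complex.I / 2 : ℂ) • (K - star K)
      rw [star_smul, star_sub, star_star]
      have h1 : star (-Complex.I / 2 : ℂ) = -(-Complex.I / 2) := by
        change conj (-Complex.I / 2 : ℂ) = _
        have h9 : conj (2 : ℂ) = 2 := map_ofNat _ 2
        rw [map_div₀, h9, map_neg, Complex.conj_I]
        ring
      rw [h1, neg_smul, ← smul_neg, neg_sub]
    · change star ((1 / 2 : ℂ) • (K + star K)) = (1 / 2 : ℂ) • (K + star K)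
      rw [star_smul, star_add, star_star, add_comm]
      congr 1
      change conj (1 / 2 : ℂ) = _
      have h9 : conj (2 : ℂ) = 2 := map_ofNat _ 2
      rw [map_div₀, h9, RingHom.map_one]
  have hkn : ∀ i, Nuc (k i) c := by
    intro i
    cases i
    · change Nuc ((-Complex.I / 2 : ℂ) • (K - star K)) c
      refine ((hK.sub hKs).smul _).mono (le_of_eq ?_)
      simp
      ring
    · change Nuc ((1 / 2 : ℂ) • (K + star K)) c
      refine ((hK.add hKs).smul _).mono (le_of_eq ?_)
      simp
      ring
  choose U' hU1 hU2 hU3 hU4 using fun i => exists_pert (A i) (k i) (R.L (of i)) c (hA1 i) (hk1 i)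
    (hkn i) (hA4 i)
  -- the unitaries `W i`
  have hL1 : ∀ i, star (R.L (of i)) * R.L (of i) = 1 := fun i => R.star_mul_self _
  have hL2 : ∀ i, R.L (of i) * star (R.L (of i)) = 1 := fun i => R.self_mul_star _
  obtain ⟨Θ, hΘ0, hΘ⟩ := kato_rosenblum K3h64.TF.t_mt K3h64.TF.t_cay K3h69.TF.t_wlim R
    (fun i => U' i * star (R.L (of i))) (1 / 5) le_rfl
    (fun i => by
      rw [star_mul, star_star]
      calc R.L (of i) * star (U' i) * (U' i * star (R.L (of i))) =
          R.L (of i) * (star (U' i) * U' i) * star (R.L (of i)) := by noncomm_ring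
        _ = 1 := by rw [hU1, mul_one, hL2])
    (fun i => by
      rw [star_mul, star_star]
      calc U' i * star (R.L (of i)) * (R.L (of i) * star (U' i)) =
          U' i * (star (R.L (of i)) * R.L (of i)) * star (U' i) := by noncomm_ring
        _ = 1 := by rw [hL1, mul_one, hU2])
    (fun i => by
      have h1 : U' i * star (R.L (of i)) - 1 = (U' i - R.L (of i)) * star (R.L (of i)) := by
        rw [sub_mul, hL2]
      rw [h1]
      have h2 : ‖star (R.L (of i))‖ ≤ 1 := opNorm_le_one (fun v => (norm_unitary (by
        rw [star_star, hL2]) v).le)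
      exact ((hU4 i).mul_right' h2).mono (by linarith))
  have hΘ' : ∀ i, Θ * U' i = R.L (of i) * Θ := by
    intro i
    ext v
    have h1 := hΘ i v
    have h2 : (U' i * star (R.L (of i))) (R.L (of i) v) = U' i v := by
      have h3 := congrArg (fun f : H →L[ℂ] H => U' i (f v)) (hL1 i)
      exact h3
    rw [h2] at h1
    exact h1
  have hint : ∀ i, Θ * (A i + k i) = A i * Θ := by
    intro i
    refine K3h69.TF.t_inter H (R.L (of i)) (U' i) (A i) (A i + k i) Θ c (hL1 i) (hL2 i)
      (weak_null R i) (hA1 i) (hA2 i) (hA4 i) (by rw [star_add, hA1, hk1]) (hU3 i) ?_ (hΘ' i)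
    rw [add_sub_cancel_left]
    exact hkn i
  have hTK : T + K = (A true + k true) + Complex.I • (A false + k false) := by
    have h1 : k true + Complex.I • k false = K := by
      change (1 / 2 : ℂ) • (K + star K) + Complex.I • ((-Complex.I / 2 : ℂ) • (K - star K)) = K
      rw [smul_smul]
      have h2 : Complex.I * (-Complex.I / 2) = 1 / 2 := by
        have := Complex.I_mul_I
        linear_combination (-1 / 2) * this
      rw [h2, ← smul_add, show K + star K + (K - star K) = (2 : ℂ) • K by rw [two_smul]; abel,
        smul_smul]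
      norm_num
    rw [hT]
    calc A true + Complex.I • A false + K = A true + Complex.I • A false +
        (k true + Complex.I • k false) := by rw [h1]
      _ = _ := by rw [smul_add]; abel
  -- a summand on which `Θ` does not vanish
  have hex : ∃ i, ∃ v ∈ V i, Θ v ≠ 0 := by
    by_contra hcon
    push Not at hcon
    refine hΘ0 ?_
    have h1 : (⨆ i, V i).topologicalClosure ≤ LinearMap.ker (Θ : H →ₗ[ℂ] H) := by
      refine Submodule.topologicalClosure_minimal _ ?_ Θ.isClosed_ker
      exact iSup_le (fun i v hv => hcon i v hv)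
    rw [htop] at h1
    ext v
    exact h1 (Submodule.mem_top (x := v))
  obtain ⟨i, hne⟩ := hex
  have hVi := hV i
  rw [hTK] at hVi
  exact no_irred R A (fun i => A i + k i) hA1 hA3 hA4 (fun i => by rw [star_add, hA1, hk1]) Θ hint
    (V i) hVi hne

/-- a separable infinite-dimensional Hilbert space has a Hilbert basis indexed by the free group -/
theorem exists_basis [TopologicalSpace.SeparableSpace H] (hinf : ¬ FiniteDimensional ℂ H) :
    Nonempty (HilbertBasis G ℂ H) := by
  obtain ⟨w, b0, hb0⟩ := exists_hilbertBasis ℂ H
  have hcount : Countable w := by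
    have h1 : ∀ x y : w, x ≠ y → 1 < dist (b0 x) (b0 y) := by
      intro x y hxy
      have h2 : dist (b0 x) (b0 y) ^ 2 = 2 := by
        rw [dist_eq_norm, @norm_sub_sq ℂ, b0.orthonormal.1, b0.orthonormal.1, b0.orthonormal.2 hxy]
        norm_num
      by_contra h3
      push Not at h3
      have h4 : dist (b0 x) (b0 y) ^ 2 ≤ 1 := by
        have := dist_nonneg (x := b0 x) (y := b0 y)
        nlinarith
      rw [h2] at h4
      norm_num at h4
    have h2 : Pairwise (Function.onFun Disjoint (fun x : w => Metric.ball (b0 x) (1 / 2))) := by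
      intro x y hxy
      refine Metric.ball_disjoint_ball ?_
      have := h1 x y hxy
      linarith
    have h3 := Pairwise.countable_of_isOpen_disjoint h2 (fun x => Metric.isOpen_ball)
      (fun x => ⟨b0 x, Metric.mem_ball_self (by norm_num)⟩)
    exact h3
  have hinfw : Infinite w := by
    by_contra h
    rw [not_infinite_iff_finite] at h
    have := Fintype.ofFinite w
    refine hinf ?_
    exact Module.Basis.finiteDimensional_of_finite (b0.toOrthonormalBasis.toBasis)
  obtain ⟨e⟩ : Nonempty (G ≃ w) := nonempty_equiv_of_countable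
  refine ⟨HilbertBasis.mk (v := fun g => b0 (e g)) (b0.orthonormal.comp e e.injective) ?_⟩
  have h1 : Set.range (fun g => b0 (e g)) = Set.range b0 := by
    ext v
    constructor
    · rintro ⟨g, rfl⟩; exact ⟨e g, rfl⟩
    · rintro ⟨x, rfl⟩; exact ⟨e.symm x, by simp⟩
  rw [h1, b0.dense_span]

end mai

end Pool.Agent.K3h73.TF
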