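import Pool.Agent.K3h73.TF.Stm

set_option autoImplicit false

namespace Pool.Agent.K3h73.TF

open scoped InnerProductSpace ComplexConjugate Topology
open Filter

section nuc

variable {E F E' F' : Type} [NormedAddCommGroup E] [InnerProductSpace ℂ E]
  [NormedAddCommGroup F] [InnerProductSpace ℂ F] [NormedAddCommGroup E'] [InnerProductSpace ℂ E']
  [NormedAddCommGroup F'] [InnerProductSpace ℂ F']

theorem norm_term_le (x : F) (y v : E) : ‖⟪y, v⟫_ℂ • x‖ ≤ ‖x‖ * ‖y‖ * ‖v‖ := by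
  rw [norm_smul]
  calc ‖⟪y, v⟫_ℂ‖ * ‖x‖ ≤ (‖y‖ * ‖v‖) * ‖x‖ := by gcongr; exact norm_inner_le_norm _ _
    _ = _ := by ring

theorem summable_term [CompleteSpace F] {x : ℕ → F} {y : ℕ → E}
    (h : Summable (fun n => ‖x n‖ * ‖y n‖)) (v : E) : Summable (fun n => ⟪y n, v⟫_ℂ • x n) :=
  Summable.of_norm_bounded (h.mul_right ‖v‖) (fun _ => norm_term_le _ _ _)

/-- the defining data of a nuclear operator, with `HasSum` -/
theorem Nuc.data [CompleteSpace F] {k : E →L[ℂ] F} {c : ℝ} (h : Nuc k c) :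
    ∃ (x : ℕ → F) (y : ℕ → E), Summable (fun n => ‖x n‖ * ‖y n‖) ∧ ∑' n, ‖x n‖ * ‖y n‖ ≤ c ∧
      ∀ v, HasSum (fun n => ⟪y n, v⟫_ℂ • x n) (k v) := by
  obtain ⟨x, y, h1, h2, h3⟩ := h
  refine ⟨x, y, h1, h2, fun v => ?_⟩
  rw [h3 v]
  exact (summable_term h1 v).hasSum

theorem Nuc.of_hasSum {k : E →L[ℂ] F} {c : ℝ} (x : ℕ → F) (y : ℕ → E)
    (h1 : Summable (fun n => ‖x n‖ * ‖y n‖)) (h2 : ∑' n, ‖x n‖ * ‖y n‖ ≤ c)
    (h3 : ∀ v, HasSum (fun n => ⟪y n, v⟫_ℂ • x n) (k v)) : Nuc k c :=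
  ⟨x, y, h1, h2, fun v => (h3 v).tsum_eq.symm⟩

theorem Nuc.nonneg {k : E →L[ℂ] F} {c : ℝ} (h : Nuc k c) : 0 ≤ c := by
  obtain ⟨x, y, h1, h2, h3⟩ := h
  exact (tsum_nonneg (fun n => by positivity)).trans h2

theorem Nuc.mono {k : E →L[ℂ] F} {c d : ℝ} (h : Nuc k c) (hcd : c ≤ d) : Nuc k d := by
  obtain ⟨x, y, h1, h2, h3⟩ := h
  exact ⟨x, y, h1, h2.trans hcd, h3⟩

theorem Nuc.zero : Nuc (0 : E →L[ℂ] F) 0 :=
  ⟨fun _ => 0, fun _ => 0, by simp, by simp, by simp⟩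

/-- the norm of a nuclear operator -/
theorem Nuc.norm_le [CompleteSpace F] {k : E →L[ℂ] F} {c : ℝ} (h : Nuc k c) : ‖k‖ ≤ c := by
  have hc := h.nonneg
  obtain ⟨x, y, h1, h2, h3⟩ := h.data
  refine ContinuousLinearMap.opNorm_le_bound _ hc (fun v => ?_)
  have h4 : ‖k v‖ ≤ ∑' n, ‖x n‖ * ‖y n‖ * ‖v‖ := by
    rw [← (h3 v).tsum_eq]
    exact tsum_of_norm_bounded (h1.mul_right ‖v‖).hasSum (fun n => norm_term_le _ _ _)
  rw [tsum_mul_right] at h4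
  exact h4.trans (by gcongr)

theorem Nuc.neg {k : E →L[ℂ] F} {c : ℝ} (h : Nuc k c) : Nuc (-k) c := by
  obtain ⟨x, y, h1, h2, h3⟩ := h
  refine ⟨fun n => - x n, y, by simpa using h1, by simpa using h2, fun v => ?_⟩
  simp [h3 v, tsum_neg]

theorem Nuc.comp_left [CompleteSpace F] [CompleteSpace F'] {k : E →L[ℂ] F} {c : ℝ} (h : Nuc k c)
    (A : F →L[ℂ] F') : Nuc (A ∘L k) (‖A‖ * c) := by
  obtain ⟨x, y, h1, h2, h3⟩ := h.data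
  have h4 : ∀ n, ‖A (x n)‖ * ‖y n‖ ≤ ‖A‖ * (‖x n‖ * ‖y n‖) := fun n => by
    rw [← mul_assoc]; gcongr; exact A.le_opNorm _
  have h5 : Summable (fun n => ‖A (x n)‖ * ‖y n‖) :=
    Summable.of_nonneg_of_le (fun n => by positivity) h4 (h1.mul_left _)
  refine Nuc.of_hasSum (fun n => A (x n)) y h5 ?_ (fun v => ?_)
  · calc ∑' n, ‖A (x n)‖ * ‖y n‖ ≤ ∑' n, ‖A‖ * (‖x n‖ * ‖y n‖) := h5.tsum_le_tsum h4 (h1.mul_left _)
      _ = ‖A‖ * ∑' n, ‖x n‖ * ‖y n‖ := tsum_mul_left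
      _ ≤ ‖A‖ * c := by gcongr
  · have := A.hasSum (h3 v)
    simpa [map_smul] using this

theorem Nuc.comp_right [CompleteSpace E] [CompleteSpace E'] [CompleteSpace F] {k : E →L[ℂ] F}
    {c : ℝ} (h : Nuc k c) (A : E' →L[ℂ] E) : Nuc (k ∘L A) (c * ‖A‖) := by
  obtain ⟨x, y, h1, h2, h3⟩ := h.data
  have h4 : ∀ n, ‖x n‖ * ‖ContinuousLinearMap.adjoint A (y n)‖ ≤ (‖x n‖ * ‖y n‖) * ‖A‖ := fun n => by
    rw [mul_assoc]; gcongr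
    calc ‖ContinuousLinearMap.adjoint A (y n)‖ ≤ ‖ContinuousLinearMap.adjoint A‖ * ‖y n‖ :=
          ContinuousLinearMap.le_opNorm _ _
      _ = ‖y n‖ * ‖A‖ := by rw [LinearIsometryEquiv.norm_map, mul_comm]
  have h5 : Summable (fun n => ‖x n‖ * ‖ContinuousLinearMap.adjoint A (y n)‖) :=
    Summable.of_nonneg_of_le (fun n => by positivity) h4 (h1.mul_right _)
  refine Nuc.of_hasSum x (fun n => ContinuousLinearMap.adjoint A (y n)) h5 ?_ (fun v => ?_)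
  · calc _ ≤ ∑' n, (‖x n‖ * ‖y n‖) * ‖A‖ := h5.tsum_le_tsum h4 (h1.mul_right _)
      _ = (∑' n, ‖x n‖ * ‖y n‖) * ‖A‖ := tsum_mul_right
      _ ≤ c * ‖A‖ := by gcongr
  · simpa [ContinuousLinearMap.adjoint_inner_left] using h3 (A v)

theorem Nuc.add [CompleteSpace F] {k l : E →L[ℂ] F} {c d : ℝ} (h : Nuc k c) (h' : Nuc l d) :
    Nuc (k + l) (c + d) := by
  obtain ⟨x, y, h1, h2, h3⟩ := h.data
  obtain ⟨x', y', h1', h2', h3'⟩ := h'.data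
  let e := Equiv.natSumNatEquivNat
  let X : ℕ ⊕ ℕ → F := Sum.elim x x'
  let Y : ℕ ⊕ ℕ → E := Sum.elim y y'
  have hs : HasSum (fun i => ‖X i‖ * ‖Y i‖) (∑' n, ‖x n‖ * ‖y n‖ + ∑' n, ‖x' n‖ * ‖y' n‖) :=
    HasSum.sum (f := fun i => ‖X i‖ * ‖Y i‖) h1.hasSum h1'.hasSum
  have hs' : HasSum (fun n => ‖X (e.symm n)‖ * ‖Y (e.symm n)‖)
      (∑' n, ‖x n‖ * ‖y n‖ + ∑' n, ‖x' n‖ * ‖y' n‖) :=
    (e.symm.hasSum_iff (f := fun i => ‖X i‖ * ‖Y i‖)).2 hs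
  refine Nuc.of_hasSum (fun n => X (e.symm n)) (fun n => Y (e.symm n)) hs'.summable ?_
    (fun v => ?_)
  · rw [hs'.tsum_eq]; linarith
  · have := HasSum.sum (f := fun i => ⟪Y i, v⟫_ℂ • X i) (h3 v) (h3' v)
    exact (e.symm.hasSum_iff (f := fun i => ⟪Y i, v⟫_ℂ • X i)).2 this

theorem Nuc.sub [CompleteSpace F] {k l : E →L[ℂ] F} {c d : ℝ} (h : Nuc k c) (h' : Nuc l d) :
    Nuc (k - l) (c + d) := by
  rw [sub_eq_add_neg]; exact h.add h'.neg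

theorem Nuc.smul [CompleteSpace F] {k : E →L[ℂ] F} {c : ℝ} (h : Nuc k c) (a : ℂ) :
    Nuc (a • k) (‖a‖ * c) := by
  obtain ⟨x, y, h1, h2, h3⟩ := h.data
  refine Nuc.of_hasSum (fun n => a • x n) y ?_ ?_ (fun v => ?_)
  · simpa [norm_smul, mul_assoc] using h1.mul_left ‖a‖
  · simp only [norm_smul, mul_assoc, tsum_mul_left]; gcongr
  · have := (h3 v).const_smul a
    simpa [smul_comm a] using this

theorem Nuc.adjoint [CompleteSpace E] [CompleteSpace F] {k : E →L[ℂ] F} {c : ℝ} (h : Nuc k c) :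
    Nuc (ContinuousLinearMap.adjoint k) c := by
  obtain ⟨x, y, h1, h2, h3⟩ := h.data
  have h1' : Summable (fun n => ‖y n‖ * ‖x n‖) := by simpa [mul_comm] using h1
  refine Nuc.of_hasSum y x h1' (by simpa [mul_comm] using h2) (fun v => ?_)
  have hs := summable_term h1' v
  convert hs.hasSum
  refine ext_inner_right ℂ (fun w => ?_)
  have h4 : HasSum (fun n => ⟪v, ⟪y n, w⟫_ℂ • x n⟫_ℂ) ⟪v, k w⟫_ℂ := (innerSL ℂ v).hasSum (h3 w)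
  have h5 : HasSum (fun n => ⟪w, ⟪x n, v⟫_ℂ • y n⟫_ℂ) ⟪w, ∑' n, ⟪x n, v⟫_ℂ • y n⟫_ℂ :=
    (innerSL ℂ w).hasSum hs.hasSum
  have h6 := h5.star
  rw [ContinuousLinearMap.adjoint_inner_left, ← inner_conj_symm (∑' n, ⟪x n, v⟫_ℂ • y n)]
  refine h4.unique ?_
  have h7 : (fun n => ⟪v, ⟪y n, w⟫_ℂ • x n⟫_ℂ) = fun n => star ⟪w, ⟪x n, v⟫_ℂ • y n⟫_ℂ := by
    funext n
    rw [inner_smul_right, inner_smul_right, ← inner_conj_symm (y n), ← inner_conj_symm v (x n)]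
    simp [mul_comm]
  rw [h7]
  exact h6

/-- the sum of the diagonal entries of a nuclear operator -/
theorem Nuc.sum_inner_le [CompleteSpace F] {k : E →L[ℂ] F} {c : ℝ} (h : Nuc k c) {ι : Type}
    (s : Finset ι) (u : ι → F) (v : ι → E) (hu : Orthonormal ℂ u) (hv : Orthonormal ℂ v) :
    ∑ i ∈ s, ‖⟪u i, k (v i)⟫_ℂ‖ ≤ c := by
  obtain ⟨x, y, h1, h2, h3⟩ := h.data
  have h4 : ∀ i, HasSum (fun n => ⟪u i, ⟪y n, v i⟫_ℂ • x n⟫_ℂ) ⟪u i, k (v i)⟫_ℂ := fun i =>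
    (innerSL ℂ (u i)).hasSum (h3 (v i))
  have h5 : ∀ i, Summable (fun n => ‖⟪u i, x n⟫_ℂ‖ * ‖⟪y n, v i⟫_ℂ‖) := fun i => by
    refine Summable.of_nonneg_of_le (fun n => by positivity) (fun n => ?_) h1
    have e1 := norm_inner_le_norm (𝕜 := ℂ) (u i) (x n)
    have e2 := norm_inner_le_norm (𝕜 := ℂ) (y n) (v i)
    rw [hu.1 i, one_mul] at e1
    rw [hv.1 i, mul_one] at e2
    gcongr
  have h6 : ∀ i, ‖⟪u i, k (v i)⟫_ℂ‖ ≤ ∑' n, ‖⟪u i, x n⟫_ℂ‖ * ‖⟪y n, v i⟫_ℂ‖ := fun i => by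
    rw [← (h4 i).tsum_eq]
    refine tsum_of_norm_bounded (h5 i).hasSum (fun n => ?_)
    rw [inner_smul_right, norm_mul, mul_comm]
  calc ∑ i ∈ s, ‖⟪u i, k (v i)⟫_ℂ‖ ≤ ∑ i ∈ s, ∑' n, ‖⟪u i, x n⟫_ℂ‖ * ‖⟪y n, v i⟫_ℂ‖ :=
        Finset.sum_le_sum (fun i _ => h6 i)
    _ = ∑' n, ∑ i ∈ s, ‖⟪u i, x n⟫_ℂ‖ * ‖⟪y n, v i⟫_ℂ‖ :=
        (Summable.tsum_finsetSum (fun i _ => h5 i)).symm
    _ ≤ ∑' n, ‖x n‖ * ‖y n‖ := by
        refine Summable.tsum_le_tsum (fun n => ?_) (summable_sum (fun i _ => h5 i)) h1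
        have b1 : ∑ i ∈ s, ‖⟪u i, x n⟫_ℂ‖ ^ 2 ≤ ‖x n‖ ^ 2 := hu.sum_inner_products_le (x n)
        have b2 : ∑ i ∈ s, ‖⟪v i, y n⟫_ℂ‖ ^ 2 ≤ ‖y n‖ ^ 2 := hv.sum_inner_products_le (y n)
        have b3 : ∀ i, ‖⟪y n, v i⟫_ℂ‖ = ‖⟪v i, y n⟫_ℂ‖ := fun i => norm_inner_symm _ _
        simp only [b3]
        have b4 := Finset.sum_mul_sq_le_sq_mul_sq s (fun i => ‖⟪u i, x n⟫_ℂ‖)
          (fun i => ‖⟪v i, y n⟫_ℂ‖)
        refine le_of_sq_le_sq ?_ (by positivity)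
        refine b4.trans ?_
        rw [mul_pow]
        gcongr
    _ ≤ c := h2

/-- nuclear operators are completely continuous -/
theorem Nuc.tendsto [CompleteSpace F] {k : E →L[ℂ] F} {c : ℝ} (h : Nuc k c) (v : ℕ → E) (B : ℝ)
    (hv : ∀ m, ‖v m‖ ≤ B) (hw : ∀ w, Tendsto (fun m => ⟪w, v m⟫_ℂ) atTop (𝓝 0)) :
    Tendsto (fun m => k (v m)) atTop (𝓝 0) := by
  obtain ⟨x, y, h1, h2, h3⟩ := h.data
  have h4 : ∀ m, k (v m) = ∑' n, ⟪y n, v m⟫_ℂ • x n := fun m => (h3 (v m)).tsum_eq.symm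
  simp only [h4]
  have := tendsto_tsum_of_dominated_convergence (𝓕 := atTop) (f := fun m n => ⟪y n, v m⟫_ℂ • x n)
    (g := fun _ : ℕ => (0 : F)) (bound := fun n => ‖x n‖ * ‖y n‖ * B) (h1.mul_right B)
    (fun n => by simpa using (hw (y n)).smul_const (x n))
    (Eventually.of_forall (fun m n => (norm_term_le _ _ _).trans (by gcongr; exact hv m)))
  simpa using this

end nuc

end Pool.Agent.K3h73.TF
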