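import Pool.Agent.K3h73.TF.Fin

set_option autoImplicit false
set_option linter.unusedSectionVars false

namespace Pool.Agent.K3h73.TF

open scoped InnerProductSpace ComplexConjugate Topology InnerProduct
open Filter FreeGroup

section ovl

attribute [local instance] actFst

variable {Q : Type} [Fintype Q] {H K : Type}
    [NormedAddCommGroup H] [InnerProductSpace ℂ H] [CompleteSpace H]
    [NormedAddCommGroup K] [InnerProductSpace ℂ K] [CompleteSpace K]

/-- the data of the construction -/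
structure Setup (R : Rep G G H) (S : Rep G (G × Q) K) (W : Bool → H →L[ℂ] H) (F : Finset G)
    (ν : Bool → ℝ) (E : K →L[ℂ] K) (Θ κ : H →L[ℂ] K) : Prop where
  W1 : ∀ s, star (W s) * W s = 1
  W2 : ∀ s, W s * star (W s) = 1
  WF : ∀ s h, h ∉ F → W s (R.b h) = R.b h
  nu : ∀ s, Nuc (W s - 1) (ν s)
  Es : ∀ v w, ⟪v, E w⟫_ℂ = ⟪E v, w⟫_ℂ
  Th : ∀ i v, Θ (W i (R.L (of i) v)) = S.L (of i) (Θ v)
  ka : ∀ g v, κ (R.L g v) = S.L g (κ v)
  kT : κ (R.b 1) = Θ (R.b 1)
  ker : ∀ v, ContinuousLinearMap.adjoint Θ v = 0 → E v = 0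
  dim : ∑ q, (⟪S.b (1, q), S.b (1, q) - E (S.b (1, q))⟫_ℂ).re ≤ (Fintype.card Q : ℝ) - 1

variable {R : Rep G G H} {S : Rep G (G × Q) K} {W : Bool → H →L[ℂ] H} {F : Finset G}
    {ν : Bool → ℝ} {E : K →L[ℂ] K} {Θ κ : H →L[ℂ] K}

theorem Rep.star_mul_self {X : Type} [MulAction G X] (S : Rep G X K) (g : G) :
    star (S.L g) * S.L g = 1 := by
  rw [S.L_star, S.L_inv_mul]

theorem Rep.self_mul_star {X : Type} [MulAction G X] (S : Rep G X K) (g : G) :
    S.L g * star (S.L g) = 1 := by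
  rw [S.L_star, S.L_mul_inv]

theorem Rep.inner_LL {X : Type} [MulAction G X] (S : Rep G X K) (g : G) (v w : K) :
    ⟪S.L g v, S.L g w⟫_ℂ = ⟪v, w⟫_ℂ := by
  rw [S.inner_left]
  congr 1
  have := congrArg (fun f : K →L[ℂ] K => f w) (S.L_inv_mul g)
  simpa using this

/-- the two operators whose Gram operator we use -/
noncomputable def pairOp (Θ κ : H →L[ℂ] K) : Bool → H →L[ℂ] K := fun t => if t then κ else Θ

theorem gram_pair (Θ κ : H →L[ℂ] K) (v : K) : gram (pairOp Θ κ) v =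
    κ (ContinuousLinearMap.adjoint κ v) + Θ (ContinuousLinearMap.adjoint Θ v) := by
  rw [gram_apply]; simp [pairOp]

theorem gram_pair_inner (Θ κ : H →L[ℂ] K) (v : K) : (⟪v, gram (pairOp Θ κ) v⟫_ℂ).re =
    ‖ContinuousLinearMap.adjoint κ v‖ ^ 2 + ‖ContinuousLinearMap.adjoint Θ v‖ ^ 2 := by
  rw [gram_inner]; simp [pairOp]

theorem Setup.Th_adj (h : Setup R S W F ν E Θ κ) (i : Bool) (w : K) :
    ContinuousLinearMap.adjoint Θ (S.L (of i) w) =
      W i (R.L (of i) (ContinuousLinearMap.adjoint Θ w)) := by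
  have h1 : (W i * R.L (of i)) * star (W i * R.L (of i)) = 1 := by
    rw [star_mul, mul_assoc, ← mul_assoc (R.L (of i)), R.self_mul_star, one_mul, h.W2]
  exact adj_inter (A := W i * R.L (of i)) (B := S.L (of i)) h1 (S.star_mul_self _) Θ
    (fun v => h.Th i v) w

theorem Setup.comm_TT (h : Setup R S W F ν E Θ κ) (g : G) (v : K) :
    Θ (ContinuousLinearMap.adjoint Θ (S.L g v)) = S.L g (Θ (ContinuousLinearMap.adjoint Θ v)) :=
  comm_of_gen S (Θ ∘L ContinuousLinearMap.adjoint Θ) (fun i v => by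
    rw [ContinuousLinearMap.comp_apply, ContinuousLinearMap.comp_apply, h.Th_adj, h.Th]) g v

theorem Setup.comm_M (h : Setup R S W F ν E Θ κ) (g : G) (v : K) :
    gram (pairOp Θ κ) (S.L g v) = S.L g (gram (pairOp Θ κ) v) := by
  rw [gram_pair, gram_pair, h.comm_TT, adj_equiv R S κ h.ka, h.ka, map_add]

theorem energy_bd {δ : ℝ} (hδ : 0 < δ) {Z : K →L[ℂ] K}
    (hZ : IsRes (gram (pairOp Θ κ)) δ Z) (v : H) :
    ‖ContinuousLinearMap.adjoint κ (Z (Θ v))‖ ≤ ‖v‖ / 2 ∧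
      ‖ContinuousLinearMap.adjoint Θ (Z (Θ v))‖ ≤ ‖v‖ := by
  set u := Z (Θ v) with hu
  set α := ‖ContinuousLinearMap.adjoint Θ u‖ with hα
  set β := ‖ContinuousLinearMap.adjoint κ u‖ with hβ
  have h1 := hZ.energy (Θ v)
  rw [← hu, gram_pair_inner, ← hα, ← hβ] at h1
  have h2 : (⟪u, Θ v⟫_ℂ).re ≤ α * ‖v‖ := by
    rw [← ContinuousLinearMap.adjoint_inner_left]
    exact (Complex.re_le_norm _).trans (norm_inner_le_norm _ _)
  have h3 : 0 ≤ δ * ‖u‖ ^ 2 := by positivity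
  have h4 : 0 ≤ α := norm_nonneg _
  have h5 : 0 ≤ β := norm_nonneg _
  have h6 : 0 ≤ ‖v‖ := norm_nonneg _
  constructor
  · refine abs_le_of_sq_le_sq' ?_ (by positivity) |>.2
    nlinarith [sq_nonneg (α - ‖v‖ / 2)]
  · rcases eq_or_lt_of_le h4 with h7 | h7
    · rw [← h7]; exact h6
    · have h8 : α * α ≤ α * ‖v‖ := by nlinarith [sq_nonneg β]
      exact le_of_mul_le_mul_left h8 h7

end ovl

end Pool.Agent.K3h73.TF
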