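import Pool.Agent.K3h73.TF.Ovl

set_option autoImplicit false
set_option linter.unusedSectionVars false

namespace Pool.Agent.K3h73.TF

open scoped InnerProductSpace ComplexConjugate Topology InnerProduct
open Filter FreeGroup

section ovl

attribute [local instance] actFst

variable {Q : Type} [Fintype Q] {H K : Type}
    [NormedAddCommGroup H] [InnerProductSpace ℂ H] [CompleteSpace H]
    [NormedAddCommGroup K] [InnerProductSpace ℂ K] [CompleteSpace K]
    {R : Rep G G H} {S : Rep G (G × Q) K} {W : Bool → H →L[ℂ] H} {F : Finset G}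
    {ν : Bool → ℝ} {E : K →L[ℂ] K} {Θ κ : H →L[ℂ] K}

/-- the column sum minus the row sum -/
theorem Setup.diff (hmt : St_mt) (h : Setup R S W F ν E Θ κ) {δ : ℝ} (hδ : 0 < δ) {Z : K →L[ℂ] K}
    (hZ : IsRes (gram (pairOp Θ κ)) δ Z) :
    ‖⟪Θ (R.b 1), Z (Θ (R.b 1))⟫_ℂ -
      ∑ q, ⟪ContinuousLinearMap.adjoint Θ (Z (S.b (1, q))),
        ContinuousLinearMap.adjoint Θ (S.b (1, q))⟫_ℂ‖ ≤ ∑ s, 2 * ν s := by
  classical
  set Θa := ContinuousLinearMap.adjoint Θ with hΘa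
  set p : G → G → ℂ := fun u k => ∑ q, ⟪Θ (R.b k), S.b (u, q)⟫_ℂ * ⟪S.b (u, q), Z (Θ (R.b k))⟫_ℂ
    with hp
  set x : G → ℂ := fun k => ⟪Θ (R.b k), Z (Θ (R.b k))⟫_ℂ with hx
  set r : ℂ := ∑ q, ⟪Θa (Z (S.b (1, q))), Θa (S.b (1, q))⟫_ℂ with hr
  set F' : Finset G := (Finset.univ ×ˢ F).image (fun y : Bool × G => (of y.1)⁻¹ * y.2) with hF'
  have hZL : ∀ g v, Z (S.L g v) = S.L g (Z v) := fun g v =>
    hZ.comm (S.L g) (fun v => h.comm_M g v) v
  -- columns
  have hcol : ∀ k, HasSum (fun u => p u k) (x k) := by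
    intro k
    have h1 := S.b.hasSum_inner_mul_inner (Θ (R.b k)) (Z (Θ (R.b k)))
    have h2 := hasSum_fiber' h1
    exact h2
  -- rows
  have hrow0 : ∀ u, HasSum (fun k => p u k) (∑ q, ⟪Θa (Z (S.b (u, q))), Θa (S.b (u, q))⟫_ℂ) := by
    intro u
    have hq : ∀ q ∈ (Finset.univ : Finset Q), HasSum (fun k => ⟪Θ (R.b k), S.b (u, q)⟫_ℂ *
        ⟪S.b (u, q), Z (Θ (R.b k))⟫_ℂ) ⟪Θa (Z (S.b (u, q))), Θa (S.b (u, q))⟫_ℂ := ?_
    · exact hasSum_sum hq
    intro q _
    have h1 := R.b.hasSum_inner_mul_inner (Θa (Z (S.b (u, q)))) (Θa (S.b (u, q)))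
    have h2 : (fun k => ⟪Θa (Z (S.b (u, q))), R.b k⟫_ℂ * ⟪R.b k, Θa (S.b (u, q))⟫_ℂ) =
        fun k => ⟪Θ (R.b k), S.b (u, q)⟫_ℂ * ⟪S.b (u, q), Z (Θ (R.b k))⟫_ℂ := by
      funext k
      rw [ContinuousLinearMap.adjoint_inner_left, ContinuousLinearMap.adjoint_inner_right,
        ← hZ.adj, mul_comm]
    rw [h2] at h1
    exact h1
  have hrq : ∀ u q, ⟪Θa (Z (S.b (1, q))), Θa (S.b (1, q))⟫_ℂ =
      ⟪Θa (Z (S.b (u, q))), Θa (S.b (u, q))⟫_ℂ := fun u q => by
    have h1 : S.b (u, q) = S.L u (S.b (1, q)) := by rw [S.hL, smul_fst, mul_one]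
    rw [h1, hZL, ContinuousLinearMap.adjoint_inner_left, ContinuousLinearMap.adjoint_inner_left,
      h.comm_TT, S.inner_LL]
  have hrow : ∀ u, HasSum (fun k => p u k) r := fun u => by
    have h0 : r = ∑ q, ⟪Θa (Z (S.b (u, q))), Θa (S.b (u, q))⟫_ℂ := by
      rw [hr]
      refine Finset.sum_congr rfl (fun q _ => ?_)
      exact hrq u q
    rw [h0]
    exact hrow0 u
  -- the shift of the basis vectors
  have hb : ∀ i k, R.b (of i * k) = R.L (of i) (R.b k) := fun i k => by rw [R.hL]; rfl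
  have hS : ∀ i u q, S.b (of i * u, q) = S.L (of i) (S.b (u, q)) := fun i u q => by
    rw [S.hL, smul_fst]
  have hshift : ∀ (i : Bool) (u k : G), k ∉ F' → p (of i * u) (of i * k) = p u k := by
    intro i u k hk
    have h1 : of i * k ∉ F := fun h2 => hk (by
      rw [hF', Finset.mem_image]
      exact ⟨(i, of i * k), by simp [h2], by simp⟩)
    have h2 : Θ (R.b (of i * k)) = S.L (of i) (Θ (R.b k)) := by
      rw [← h.Th, ← hb, h.WF i _ h1]
    simp only [hp]
    refine Finset.sum_congr rfl (fun q _ => ?_)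
    rw [h2, hS, hZL, S.inner_LL, S.inner_LL]
  have hmt' := hmt p x r F' hcol hrow hshift
  -- the nuclear operators
  set X : H →L[ℂ] H := Θa ∘L (Z ∘L Θ) with hX
  have hXn : ‖X‖ ≤ 1 := ContinuousLinearMap.opNorm_le_bound _ zero_le_one (fun v => by
    rw [one_mul]; exact (energy_bd hδ hZ v).2)
  set D : Bool → H →L[ℂ] H := fun i => X - star (W i) * X * W i with hD
  have hWn : ∀ i, ‖W i‖ ≤ 1 := fun i => by
    refine ContinuousLinearMap.opNorm_le_bound _ zero_le_one (fun v => ?_)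
    have h1 : ‖W i v‖ ^ 2 = ‖v‖ ^ 2 := by
      have h2 : ⟪W i v, W i v⟫_ℂ = ⟪v, v⟫_ℂ := by
        rw [← ContinuousLinearMap.adjoint_inner_right, ← ContinuousLinearMap.star_eq_adjoint]
        have h9 : star (W i) (W i v) = v := by
          have := congrArg (fun f : H →L[ℂ] H => f v) (h.W1 i)
          simpa using this
        rw [h9]
      rw [← inner_self_eq_norm_sq (𝕜 := ℂ) (W i v), h2, inner_self_eq_norm_sq]
    rw [one_mul]
    exact (abs_le_of_sq_le_sq' h1.le (norm_nonneg _)).2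
  have hDn : ∀ i, Nuc (D i) (2 * ν i) := by
    intro i
    have hν0 := (h.nu i).nonneg
    have e1 : D i = -((X ∘L (W i - 1)) + ((star (W i - 1)) ∘L (X ∘L W i))) := by
      have e2 : D i = X - star (W i) * X * W i := rfl
      have e3 : (X ∘L (W i - 1)) + ((star (W i - 1)) ∘L (X ∘L W i)) =
        X * (W i - 1) + star (W i - 1) * (X * W i) := rfl
      rw [e2, e3, star_sub, star_one]
      noncomm_ring
    rw [e1]
    have n1 : Nuc (X ∘L (W i - 1)) (‖X‖ * ν i) := (h.nu i).comp_left X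
    have n2 : Nuc ((star (W i - 1)) ∘L (X ∘L W i)) (ν i * ‖X ∘L W i‖) :=
      ((h.nu i).adjoint).comp_right (X ∘L W i)
    refine ((n1.add n2).neg).mono ?_
    have n3 : ‖X ∘L W i‖ ≤ 1 := by
      calc ‖X ∘L W i‖ ≤ ‖X‖ * ‖W i‖ := ContinuousLinearMap.opNorm_comp_le _ _
        _ ≤ 1 * 1 := by gcongr; exact hWn i
        _ = 1 := one_mul _
    calc ‖X‖ * ν i + ν i * ‖X ∘L W i‖ ≤ 1 * ν i + ν i * 1 := by gcongr
      _ = 2 * ν i := by ring
  have hxd : ∀ i k, x (of i * k) - x k = ⟪R.b (of i * k), D i (R.b (of i * k))⟫_ℂ := by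
    intro i k
    have e1 : x (of i * k) = ⟪R.b (of i * k), X (R.b (of i * k))⟫_ℂ := by
      rw [hX, ContinuousLinearMap.comp_apply, ContinuousLinearMap.adjoint_inner_right]; rfl
    have e2 : x k = ⟪R.b (of i * k), (star (W i) * X * W i) (R.b (of i * k))⟫_ℂ := by
      rw [mul_assoc, mul_apply_eq_comp, ContinuousLinearMap.star_eq_adjoint,
        ContinuousLinearMap.adjoint_inner_right, mul_apply_eq_comp, hX,
        ContinuousLinearMap.comp_apply, ContinuousLinearMap.comp_apply,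
        ContinuousLinearMap.adjoint_inner_right, hb, h.Th, hZL, S.inner_LL]
    rw [e1, e2, ← inner_sub_right]
    rfl
  rw [show ⟪Θ (R.b 1), Z (Θ (R.b 1))⟫_ℂ = x 1 from rfl, hmt']
  refine (norm_sum_le _ _).trans (Finset.sum_le_sum (fun i _ => ?_))
  refine (norm_sum_le _ _).trans ?_
  have ho : Orthonormal ℂ (fun k : G => R.b (of i * k)) :=
    R.b.orthonormal.comp (fun k : G => of i * k) (mul_right_injective _)
  have hA := (hDn i).sum_inner_le F' (fun k => R.b (of i * k)) (fun k => R.b (of i * k)) ho ho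
  refine le_trans ?_ hA
  refine Finset.sum_le_sum (fun k _ => ?_)
  by_cases hk : k ∈ startsWith (i, false)
  · rw [Set.indicator_of_mem hk, hxd]
  · rw [Set.indicator_of_notMem hk, norm_zero]; exact norm_nonneg _

end ovl

end Pool.Agent.K3h73.TF
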