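import Pool.Agent.K3h73.TF.Ovl2

set_option autoImplicit false
set_option linter.unusedSectionVars false

namespace Pool.Agent.K3h73.TF

open scoped InnerProductSpace ComplexConjugate Topology InnerProduct
open Filter FreeGroup

section ovl

attribute [local instance] actFst

variable {Q : Type} [Fintype Q] {H K : Type}
    [NormedAddCommGroup H] [InnerProductSpace ℂ H] [CompleteSpace H]
    [NormedAddCommGroup K] [InnerProductSpace ℂ K] [CompleteSpace K]
    {R : Rep G G H} {S : Rep G (G × Q) K} {W : Bool → H →L[ℂ] H} {F : Finset G}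
    {ν : Bool → ℝ} {E : K →L[ℂ] K} {Θ κ : H →L[ℂ] K}

/-- the sum of the column sum and of the row sum -/
theorem Setup.sum (h : Setup R S W F ν E Θ κ) {δ : ℝ} {Z : K →L[ℂ] K}
    (hZ : IsRes (gram (pairOp Θ κ)) δ Z) :
    (⟪Θ (R.b 1), Z (Θ (R.b 1))⟫_ℂ).re +
      (∑ q, ⟪ContinuousLinearMap.adjoint Θ (Z (S.b (1, q))),
        ContinuousLinearMap.adjoint Θ (S.b (1, q))⟫_ℂ).re =
      (Fintype.card Q : ℝ) - ∑ q, (⟪S.b (1, q), (δ : ℂ) • Z (S.b (1, q))⟫_ℂ).re := by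
  have hZL : ∀ g v, Z (S.L g v) = S.L g (Z v) := fun g v =>
    hZ.comm (S.L g) (fun v => h.comm_M g v) v
  have h1 : ⟪Θ (R.b 1), Z (Θ (R.b 1))⟫_ℂ =
      ∑ q, ⟪S.b (1, q), κ (ContinuousLinearMap.adjoint κ (Z (S.b (1, q))))⟫_ℂ := by
    have e1 := trace_comm R S κ ((ContinuousLinearMap.adjoint κ) ∘L Z) h.ka (fun g v => by
      rw [ContinuousLinearMap.comp_apply, ContinuousLinearMap.comp_apply, hZL,
        adj_equiv R S κ h.ka])
    rw [← h.kT]
    rw [ContinuousLinearMap.comp_apply, ContinuousLinearMap.adjoint_inner_right] at e1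
    exact e1
  rw [h1, Complex.re_sum, Complex.re_sum, ← Finset.sum_add_distrib, eq_sub_iff_add_eq,
    ← Finset.sum_add_distrib]
  have h2 : ∀ q, (⟪S.b (1, q), κ (ContinuousLinearMap.adjoint κ (Z (S.b (1, q))))⟫_ℂ).re +
      (⟪ContinuousLinearMap.adjoint Θ (Z (S.b (1, q))),
        ContinuousLinearMap.adjoint Θ (S.b (1, q))⟫_ℂ).re +
      (⟪S.b (1, q), (δ : ℂ) • Z (S.b (1, q))⟫_ℂ).re = 1 := by
    intro q
    have e1 : (⟪ContinuousLinearMap.adjoint Θ (Z (S.b (1, q))),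
        ContinuousLinearMap.adjoint Θ (S.b (1, q))⟫_ℂ).re =
        (⟪S.b (1, q), Θ (ContinuousLinearMap.adjoint Θ (Z (S.b (1, q))))⟫_ℂ).re := by
      rw [re_inner_symm, ContinuousLinearMap.adjoint_inner_left]
    rw [e1, ← Complex.add_re, ← Complex.add_re, ← inner_add_right, ← inner_add_right,
      ← gram_pair, hZ.right, inner_self_eq_norm_sq_to_K, S.b.orthonormal.1]
    simp
  rw [Finset.sum_congr rfl (fun q _ => h2 q)]
  simp

/-- the overlap estimate -/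
theorem Setup.overlap (hmt : St_mt) (h : Setup R S W F ν E Θ κ) (hE2 : ∀ v, E (E v) = E v)
    {η : ℝ} (hη : 0 < η) :
    ∃ Φ : H →L[ℂ] H, ‖Φ‖ ≤ 1 ∧ (∀ i v, Φ (W i (R.L (of i) v)) = R.L (of i) (Φ v)) ∧
      1 - ∑ s, 2 * ν s - η ≤ (⟪R.b 1, Φ (R.b 1)⟫_ℂ).re := by
  have hM := gram_pos (pairOp Θ κ)
  set d : ℕ → ℝ := fun n => 1 / ((n : ℝ) + 1) with hd
  have hd0 : ∀ n, 0 < d n := fun n => by positivity
  have hdl : Tendsto d atTop (𝓝 0) := tendsto_one_div_add_atTop_nhds_zero_nat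
  choose Z hZ using fun n => exists_res (gram (pairOp Θ κ)) hM (hd0 n)
  obtain ⟨P, hP1, hP2, hP3, hP4⟩ := exists_kerproj (gram (pairOp Θ κ))
  -- the limit
  have hlim : Tendsto (fun n => ∑ q, (⟪S.b (1, q), (d n : ℂ) • Z n (S.b (1, q))⟫_ℂ).re)
      atTop (𝓝 (∑ q, (⟪S.b (1, q), P (S.b (1, q))⟫_ℂ).re)) := by
    refine tendsto_finsetSum _ (fun q _ => ?_)
    have h1 := IsRes.tendsto hM P hP1 hP2 hP3 d hd0 hdl Z hZ (S.b (1, q))
    exact (Complex.continuous_re.tendsto _).comp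
      ((tendsto_const_nhds (x := S.b (1, q))).inner h1)
  have hPE : ∀ v, P (E v) = 0 := by
    have e1 : ∀ v, E (P v) = 0 := fun v => by
      refine h.ker _ ?_
      have e2 := (gram_eq_zero (pairOp Θ κ) (P v)).1 ((hP3 _).2 (hP2 v)) false
      simpa [pairOp] using e2
    intro v
    refine ext_inner_left ℂ (fun w => ?_)
    rw [hP1, h.Es, e1, inner_zero_left, inner_zero_right]
  have hle : ∑ q, (⟪S.b (1, q), P (S.b (1, q))⟫_ℂ).re ≤ (Fintype.card Q : ℝ) - 1 := by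
    refine le_trans (Finset.sum_le_sum (fun q _ => ?_)) h.dim
    set v := S.b (1, q) with hv
    have e1 : (⟪v, P v⟫_ℂ).re = ‖P v‖ ^ 2 := by
      rw [← hP2 v, hP1, hP2 v]; exact inner_self_eq_norm_sq (𝕜 := ℂ) _
    have e2 : (⟪v, v - E v⟫_ℂ).re = ‖v - E v‖ ^ 2 := by
      have e3 : ⟪v - E v, v - E v⟫_ℂ = ⟪v, v - E v⟫_ℂ := by
        rw [inner_sub_left, sub_eq_self, ← h.Es, map_sub, hE2, sub_self, inner_zero_right]
      rw [← e3]; exact inner_self_eq_norm_sq (𝕜 := ℂ) _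
    have e4 : P v = P (v - E v) := by rw [map_sub, hPE, sub_zero]
    rw [e1, e2, e4]
    gcongr
    exact hP4 _
  obtain ⟨n, hn⟩ : ∃ n, ∑ q, (⟪S.b (1, q), (d n : ℂ) • Z n (S.b (1, q))⟫_ℂ).re <
      (Fintype.card Q : ℝ) - 1 + η :=
    (hlim.eventually (gt_mem_nhds (lt_of_le_of_lt hle (by linarith)))).exists
  have hZn := hZ n
  have hZL : ∀ g v, Z n (S.L g v) = S.L g (Z n v) := fun g v =>
    hZn.comm (S.L g) (fun v => h.comm_M g v) v
  have hs := h.sum hZn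
  have hdf := h.diff hmt (hd0 n) hZn
  refine ⟨(2 : ℂ) • (ContinuousLinearMap.adjoint κ ∘L (Z n ∘L Θ)), ?_, ?_, ?_⟩
  · refine ContinuousLinearMap.opNorm_le_bound _ zero_le_one (fun v => ?_)
    have e1 := (energy_bd (hd0 n) hZn v).1
    rw [smul_apply, norm_smul, ContinuousLinearMap.comp_apply, ContinuousLinearMap.comp_apply]
    norm_num
    linarith
  · intro i v
    rw [smul_apply, smul_apply, ContinuousLinearMap.comp_apply, ContinuousLinearMap.comp_apply,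
      ContinuousLinearMap.comp_apply, ContinuousLinearMap.comp_apply, h.Th, hZL,
      adj_equiv R S κ h.ka, map_smul]
  · have e1 : ⟪R.b 1, ((2 : ℂ) • (ContinuousLinearMap.adjoint κ ∘L (Z n ∘L Θ))) (R.b 1)⟫_ℂ =
        2 * ⟪Θ (R.b 1), Z n (Θ (R.b 1))⟫_ℂ := by
      rw [smul_apply, inner_smul_right, ContinuousLinearMap.comp_apply,
        ContinuousLinearMap.comp_apply, ContinuousLinearMap.adjoint_inner_right, h.kT]
    rw [e1]
    have e2 := (Complex.abs_re_le_norm _).trans hdf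
    rw [Complex.sub_re] at e2
    have e3 := (abs_le.1 e2).1
    have e4 : ((2 : ℂ) * ⟪Θ (R.b 1), Z n (Θ (R.b 1))⟫_ℂ).re =
        2 * (⟪Θ (R.b 1), Z n (Θ (R.b 1))⟫_ℂ).re := by
      rw [Complex.mul_re]; simp
    rw [e4]
    linarith

end ovl

end Pool.Agent.K3h73.TF
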