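import Pool.Agent.K3h73.TF.KR
import Pool.Agent.K3h64.TF.Cay
import Pool.Agent.K3h69.TF.Min

set_option autoImplicit false
set_option linter.unusedSectionVars false

namespace Pool.Agent.K3h73.TF

open scoped InnerProductSpace ComplexConjugate Topology InnerProduct
open Filter FreeGroup

section pert

variable {H : Type} [NormedAddCommGroup H] [InnerProductSpace ℂ H] [CompleteSpace H]

theorem opNorm_le_one {X : H →L[ℂ] H} (h : ∀ v, ‖X v‖ ≤ ‖v‖) : ‖X‖ ≤ 1 :=
  ContinuousLinearMap.opNorm_le_bound _ zero_le_one (fun v => by rw [one_mul]; exact h v)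

theorem norm_unitary {W : H →L[ℂ] H} (h : star W * W = 1) (v : H) : ‖W v‖ = ‖v‖ := by
  have h1 : ⟪W v, W v⟫_ℂ = ⟪v, v⟫_ℂ := by
    rw [← ContinuousLinearMap.adjoint_inner_right, ← ContinuousLinearMap.star_eq_adjoint]
    have h9 : star W (W v) = v := by
      have := congrArg (fun f : H →L[ℂ] H => f v) h
      simpa using this
    rw [h9]
  have h2 : ‖W v‖ ^ 2 = ‖v‖ ^ 2 := by
    rw [← inner_self_eq_norm_sq (𝕜 := ℂ) (W v), h1, inner_self_eq_norm_sq]
  exact (sq_eq_sq₀ (norm_nonneg _) (norm_nonneg _)).1 h2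

theorem Nuc.mul_left' {k : H →L[ℂ] H} {c : ℝ} (h : Nuc k c) {X : H →L[ℂ] H} (hX : ‖X‖ ≤ 1) :
    Nuc (X * k) c := by
  refine (h.comp_left X).mono ?_
  have := h.nonneg
  calc ‖X‖ * c ≤ 1 * c := by gcongr
    _ = c := one_mul _

theorem Nuc.mul_right' {k : H →L[ℂ] H} {c : ℝ} (h : Nuc k c) {X : H →L[ℂ] H} (hX : ‖X‖ ≤ 1) :
    Nuc (k * X) c := by
  refine (h.comp_right X).mono ?_
  have := h.nonneg
  calc c * ‖X‖ ≤ c * 1 := by gcongr
    _ = c := mul_one _

/-- the perturbed unitary -/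
theorem exists_pert (A k U : H →L[ℂ] H) (c : ℝ) (hA : star A = A) (hk : star k = k)
    (hkn : Nuc k c) (hAU : (1 + Complex.I • A) ^ 2 = U * (1 - Complex.I • A) ^ 2) :
    ∃ U' : H →L[ℂ] H, star U' * U' = 1 ∧ U' * star U' = 1 ∧
      (1 + Complex.I • (A + k)) ^ 2 = U' * (1 - Complex.I • (A + k)) ^ 2 ∧ Nuc (U' - U) (4 * c) := by
  obtain ⟨S, hS1, hS2, hS3⟩ := K3h64.TF.exists_S A hA
  have hA' : star (A + k) = A + k := by rw [star_add, hA, hk]
  obtain ⟨S', hS1', hS2', hS3'⟩ := K3h64.TF.exists_S (A + k) hA'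
  obtain ⟨u1, u2⟩ := K3h64.TF.cayley_unitary A S hA hS1 hS2
  obtain ⟨u1', u2'⟩ := K3h64.TF.cayley_unitary (A + k) S' hA' hS1' hS2'
  have e1 := K3h64.TF.cayley_eq A S hS1
  have e1' := K3h64.TF.cayley_eq (A + k) S' hS1'
  set V := (1 + Complex.I • A) * S with hV
  set V' := (1 + Complex.I • (A + k)) * S' with hV'
  have hVb : V * (1 - Complex.I • A) = 1 + Complex.I • A := by
    rw [hV, mul_assoc, hS2, mul_one]
  have hVb' : V' * (1 - Complex.I • (A + k)) = 1 + Complex.I • (A + k) := by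
    rw [hV', mul_assoc, hS2', mul_one]
  have hcomm : ∀ D : H →L[ℂ] H, (1 + Complex.I • D) * (1 - Complex.I • D) =
      (1 - Complex.I • D) * (1 + Complex.I • D) := fun D => by
    simp only [mul_add, add_mul, mul_sub, sub_mul, one_mul, mul_one]
    abel
  have hsq : ∀ D Y : H →L[ℂ] H, Y * (1 - Complex.I • D) = 1 + Complex.I • D →
      (1 + Complex.I • D) ^ 2 = (Y * Y) * (1 - Complex.I • D) ^ 2 := by
    intro D Y hY
    calc (1 + Complex.I • D) ^ 2 = Y * (1 - Complex.I • D) * (1 + Complex.I • D) := by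
          rw [hY, sq]
      _ = Y * ((1 + Complex.I • D) * (1 - Complex.I • D)) := by rw [mul_assoc, hcomm]
      _ = Y * (Y * (1 - Complex.I • D) * (1 - Complex.I • D)) := by rw [hY]
      _ = _ := by rw [sq]; noncomm_ring
  have hUV : U = V * V := by
    have h1 := hsq A V hVb
    rw [hAU] at h1
    have h2 : U * (1 - Complex.I • A) ^ 2 * (S * S) = V * V * (1 - Complex.I • A) ^ 2 * (S * S) := by
      rw [h1]
    have h3 : (1 - Complex.I • A) ^ 2 * (S * S) = 1 := by
      calc (1 - Complex.I • A) ^ 2 * (S * S) =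
          (1 - Complex.I • A) * ((1 - Complex.I • A) * S) * S := by rw [sq]; noncomm_ring
        _ = 1 := by rw [hS1, mul_one, hS1]
    rw [mul_assoc, mul_assoc, h3, mul_one, mul_one] at h2
    exact h2
  refine ⟨V' * V', ?_, ?_, hsq _ _ hVb', ?_⟩
  · rw [star_mul]
    calc star V' * star V' * (V' * V') = star V' * (star V' * V') * V' := by noncomm_ring
      _ = 1 := by rw [u1', mul_one, u1']
  · rw [star_mul]
    calc V' * V' * (star V' * star V') = V' * (V' * star V') * star V' := by noncomm_ring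
      _ = 1 := by rw [u2', mul_one, u2']
  · have hn1 : ‖V‖ ≤ 1 := opNorm_le_one (fun v => (norm_unitary u1 v).le)
    have hn2 : ‖V'‖ ≤ 1 := opNorm_le_one (fun v => (norm_unitary u1' v).le)
    have hd : S' - S = Complex.I • (S' * k * S) := by
      have h1 : S' * ((1 - Complex.I • A) - (1 - Complex.I • (A + k))) * S = S' - S := by
        calc S' * ((1 - Complex.I • A) - (1 - Complex.I • (A + k))) * S
            = S' * ((1 - Complex.I • A) * S) - (S' * (1 - Complex.I • (A + k))) * S := by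
              noncomm_ring
          _ = S' - S := by rw [hS1, hS2', mul_one, one_mul]
      rw [← h1]
      have h2 : (1 - Complex.I • A) - (1 - Complex.I • (A + k)) = Complex.I • k := by
        rw [smul_add]; abel
      rw [h2, mul_smul_comm, smul_mul_assoc]
    have hdn : Nuc (V' - V) (2 * c) := by
      have h1 : V' - V = (2 * Complex.I) • (S' * k * S) := by
        rw [e1, e1', mul_smul, ← hd, smul_sub]
        abel
      rw [h1]
      have h2 := ((hkn.mul_left' (opNorm_le_one hS3')).mul_right' (opNorm_le_one hS3)).smul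
        (2 * Complex.I)
      refine h2.mono (le_of_eq ?_)
      rw [norm_mul, Complex.norm_I, mul_one]
      norm_num
    have h1 : V' * V' - U = V' * (V' - V) + (V' - V) * V := by rw [hUV]; noncomm_ring
    rw [h1]
    refine ((hdn.mul_left' hn2).add (hdn.mul_right' hn1)).mono (le_of_eq (by ring))

/-- powers of a translation tend weakly to `0` -/
theorem weak_null (R : Rep G G H) (i : Bool) (v w : H) :
    Tendsto (fun n : ℕ => ⟪w, (R.L (of i) ^ n) v⟫_ℂ) atTop (𝓝 0) := by
  have hpow : ∀ n : ℕ, R.L (of i) ^ n = R.L (of i ^ n) := fun n => by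
    induction n with
    | zero => rw [pow_zero, pow_zero, R.L_one]
    | succ n ih => rw [pow_succ, pow_succ, R.L_mul, ih]
  -- the coefficients of `w`
  have hco : Tendsto (fun x => ⟪R.b x, w⟫_ℂ) cofinite (𝓝 0) := by
    have h1 := (R.b.summable_inner_mul_inner w w).tendsto_cofinite_zero
    rw [tendsto_zero_iff_norm_tendsto_zero] at h1 ⊢
    have h2 : ∀ x, ‖⟪w, R.b x⟫_ℂ * ⟪R.b x, w⟫_ℂ‖ = ‖⟪R.b x, w⟫_ℂ‖ ^ 2 := fun x => by
      rw [norm_mul, norm_inner_symm, sq]
    simp only [h2] at h1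
    have h3 := h1.sqrt
    simpa [Real.sqrt_sq] using h3
  set u : ℕ → H := fun n => R.L (of i ^ n)⁻¹ w with hu
  have hun : ∀ n, ‖u n‖ ≤ ‖w‖ := fun n => (norm_unitary (R.star_mul_self _) w).le
  have hmem : ∀ x, R.b x ∈ K3h69.TF.nullSub atTop u := by
    intro x
    rw [K3h69.TF.mem_nullSub]
    have h1 : ∀ n : ℕ, ⟪R.b x, u n⟫_ℂ = ⟪R.b (of i ^ n * x), w⟫_ℂ := fun n => by
      rw [hu]
      change ⟪R.b x, R.L (of i ^ n)⁻¹ w⟫_ℂ = _
      rw [R.inner_right, inv_inv, R.hL, smul_eq_mul]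
    simp only [h1]
    have h2 : Function.Injective (fun n : ℕ => of i ^ n * x) := fun n m hnm => by
      have h3 : of i ^ n = of i ^ m := mul_right_cancel hnm
      have h4 := congrArg FreeGroup.norm h3
      rwa [norm_of_pow, norm_of_pow] at h4
    have h5 := hco.comp h2.tendsto_cofinite
    rw [Nat.cofinite_eq_atTop] at h5
    exact h5
  have hall : ∀ v, v ∈ K3h69.TF.nullSub atTop u := by
    intro v
    have hcl := K3h69.TF.nullSub_closed atTop u ‖w‖ hun
    have h1 : (Submodule.span ℂ (Set.range R.b)).topologicalClosure ≤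
        K3h69.TF.nullSub atTop u := by
      refine Submodule.topologicalClosure_minimal _ ?_ hcl
      rw [Submodule.span_le]
      rintro _ ⟨x, rfl⟩
      exact hmem x
    rw [R.b.dense_span] at h1
    exact h1 trivial
  have h1 := (K3h69.TF.mem_nullSub _ _ _).1 (hall v)
  have h2 : ∀ n : ℕ, ⟪w, (R.L (of i) ^ n) v⟫_ℂ = conj ⟪v, u n⟫_ℂ := fun n => by
    rw [hpow, inner_conj_symm]
    change _ = ⟪R.L (of i ^ n)⁻¹ w, v⟫_ℂ
    rw [R.inner_left, inv_inv]
  simp only [h2]
  have h3 := (Complex.continuous_conj.tendsto 0).comp h1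
  rw [map_zero] at h3
  exact h3

/-- a translation has no eigenvalue `-1` -/
theorem no_neg_one (R : Rep G G H) (i : Bool) (v : H) (hv : R.L (of i) v = -v) : v = 0 := by
  have h1 := weak_null R i v v
  have hpow : ∀ n : ℕ, (R.L (of i) ^ n) v = (-1 : ℂ) ^ n • v := fun n => by
    induction n with
    | zero => simp
    | succ n ih =>
      rw [pow_succ', mul_apply_eq_comp, ih, map_smul, hv, pow_succ, mul_smul]
      simp
  simp only [hpow] at h1
  rw [tendsto_zero_iff_norm_tendsto_zero] at h1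
  have h2 : ∀ n : ℕ, ‖⟪v, (-1 : ℂ) ^ n • v⟫_ℂ‖ = ‖v‖ ^ 2 := fun n => by
    have h5 : ‖(-1 : ℂ) ^ n‖ = 1 := by simp
    rw [inner_smul_right, norm_mul, h5, one_mul, inner_self_eq_norm_sq_to_K]
    simp
  simp only [h2] at h1
  have h3 := tendsto_nhds_unique h1 tendsto_const_nhds
  have h4 : ‖v‖ = 0 := by
    have := h3.symm
    exact pow_eq_zero_iff (two_ne_zero) |>.1 this
  exact norm_eq_zero.1 h4

end pert

end Pool.Agent.K3h73.TF
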