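import Pool.Agent.K3h73.TF.Bas

set_option autoImplicit false
set_option linter.unusedSectionVars false

namespace Pool.Agent.K3h73.TF

open scoped InnerProductSpace ComplexConjugate Topology
open Filter

section res

variable {K : Type} [NormedAddCommGroup K] [InnerProductSpace ℂ K] [CompleteSpace K]

/-- `Z` is the resolvent `(M + δ)⁻¹` -/
structure IsRes (M : K →L[ℂ] K) (δ : ℝ) (Z : K →L[ℂ] K) : Prop where
  right : ∀ v, M (Z v) + (δ : ℂ) • Z v = v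
  left : ∀ v, Z (M v) + (δ : ℂ) • Z v = v
  adj : ∀ v w, ⟪v, Z w⟫_ℂ = ⟪Z v, w⟫_ℂ

theorem exists_res (M : K →L[ℂ] K) (hM : M.IsPositive) {δ : ℝ} (hδ : 0 < δ) :
    ∃ Z, IsRes M δ Z := by
  have h1 : IsUnit (M + (δ : ℂ) • (1 : K →L[ℂ] K)) := by
    refine ContinuousLinearMap.isUnit_of_forall_le_norm_inner_map _ (c := ⟨δ, hδ.le⟩) hδ
      (fun x => ?_)
    have h2 : (⟪(M + (δ : ℂ) • (1 : K →L[ℂ] K)) x, x⟫_ℂ).re =
        (⟪M x, x⟫_ℂ).re + δ * ‖x‖ ^ 2 := by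
      rw [add_apply, inner_add_left, smul_apply,
        inner_smul_left, Complex.add_re, one_apply_eq_self, inner_self_eq_norm_sq_to_K]
      simp only [Complex.conj_ofReal]
      congr 1
      have h9 : (δ : ℂ) * ((‖x‖ : ℝ) : ℂ) ^ 2 = ((δ * ‖x‖ ^ 2 : ℝ) : ℂ) := by push_cast; ring
      exact (congrArg Complex.re h9).trans (Complex.ofReal_re _)
    have h3 : 0 ≤ (⟪M x, x⟫_ℂ).re := hM.re_inner_nonneg_left x
    calc ‖x‖ ^ 2 * δ ≤ (⟪(M + (δ : ℂ) • (1 : K →L[ℂ] K)) x, x⟫_ℂ).re := by rw [h2]; linarith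
      _ ≤ _ := Complex.re_le_norm _
  obtain ⟨u, hu⟩ := h1
  have hr : ∀ v, M ((u⁻¹ : (K →L[ℂ] K)ˣ).1 v) + (δ : ℂ) • ((u⁻¹ : (K →L[ℂ] K)ˣ).1 v) = v := fun v => by
    have h4 : (u : K →L[ℂ] K) * (u⁻¹ : (K →L[ℂ] K)ˣ).1 = 1 := u.mul_inv
    rw [hu] at h4
    have := congrArg (fun f : K →L[ℂ] K => f v) h4
    simpa using this
  have hl : ∀ v, (u⁻¹ : (K →L[ℂ] K)ˣ).1 (M v) + (δ : ℂ) • ((u⁻¹ : (K →L[ℂ] K)ˣ).1 v) = v := fun v => by
    have h4 : (u⁻¹ : (K →L[ℂ] K)ˣ).1 * (u : K →L[ℂ] K) = 1 := u.inv_mul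
    rw [hu] at h4
    have := congrArg (fun f : K →L[ℂ] K => f v) h4
    simpa using this
  refine ⟨(u⁻¹ : (K →L[ℂ] K)ˣ).1, hr, hl, fun v w => ?_⟩
  set Z := (u⁻¹ : (K →L[ℂ] K)ˣ).1 with hZ
  have h5 : ⟪v, Z w⟫_ℂ = ⟪M (Z v) + (δ : ℂ) • Z v, Z w⟫_ℂ := by rw [hr]
  have h6 : ⟪Z v, w⟫_ℂ = ⟪Z v, M (Z w) + (δ : ℂ) • Z w⟫_ℂ := by rw [hr]
  rw [h5, h6, inner_add_left, inner_add_right, inner_smul_left, inner_smul_right,
    Complex.conj_ofReal, hM.inner_left_eq_inner_right]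

variable {M : K →L[ℂ] K} {δ : ℝ} {Z : K →L[ℂ] K}

theorem IsRes.energy (h : IsRes M δ Z) (v : K) :
    (⟪Z v, v⟫_ℂ).re = (⟪Z v, M (Z v)⟫_ℂ).re + δ * ‖Z v‖ ^ 2 := by
  have h1 : ⟪Z v, v⟫_ℂ = ⟪Z v, M (Z v) + (δ : ℂ) • Z v⟫_ℂ := by rw [h.right v]
  rw [h1, inner_add_right, inner_smul_right, Complex.add_re, inner_self_eq_norm_sq_to_K]
  congr 1
  have h9 : (δ : ℂ) * ((‖Z v‖ : ℝ) : ℂ) ^ 2 = ((δ * ‖Z v‖ ^ 2 : ℝ) : ℂ) := by push_cast; ring
  exact (congrArg Complex.re h9).trans (Complex.ofReal_re _)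

theorem IsRes.norm_le (h : IsRes M δ Z) (hM : M.IsPositive) (v : K) :
    δ * ‖Z v‖ ≤ ‖v‖ := by
  have h1 := h.energy v
  have h2 : 0 ≤ (⟪Z v, M (Z v)⟫_ℂ).re := hM.re_inner_nonneg_right _
  have h3 : (⟪Z v, v⟫_ℂ).re ≤ ‖Z v‖ * ‖v‖ := (Complex.re_le_norm _).trans (norm_inner_le_norm _ _)
  rcases eq_or_lt_of_le (norm_nonneg (Z v)) with h4 | h4
  · rw [← h4]; simp
  · have : ‖Z v‖ * (δ * ‖Z v‖) ≤ ‖Z v‖ * ‖v‖ := by nlinarith
    exact le_of_mul_le_mul_left this h4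

/-- the limit of `δ (M + δ)⁻¹` is the projection onto the kernel -/
theorem IsRes.tendsto (hM : M.IsPositive) (E : K →L[ℂ] K) (hE : ∀ v w, ⟪v, E w⟫_ℂ = ⟪E v, w⟫_ℂ)
    (hE2 : ∀ v, E (E v) = E v) (hk : ∀ v, M v = 0 ↔ E v = v)
    (d : ℕ → ℝ) (hd : ∀ n, 0 < d n) (hd0 : Tendsto d atTop (𝓝 0))
    (Z : ℕ → K →L[ℂ] K) (hZ : ∀ n, IsRes M (d n) (Z n)) (v : K) :
    Tendsto (fun n => (d n : ℂ) • Z n v) atTop (𝓝 (E v)) := by
  have hb : ∀ n w, ‖(d n : ℂ) • Z n w‖ ≤ ‖w‖ := fun n w => by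
    rw [norm_smul, Complex.norm_real, Real.norm_of_nonneg (hd n).le]
    exact (hZ n).norm_le hM w
  -- the case of the range of `M`
  have hME : ∀ w, E (M w) = 0 := fun w => by
    refine ext_inner_left ℂ (fun x => ?_)
    rw [hE, inner_zero_right, ← hM.inner_left_eq_inner_right, (hk (E x)).2 (hE2 x), inner_zero_left]
  have hran : ∀ w, Tendsto (fun n => (d n : ℂ) • Z n (M w)) atTop (𝓝 0) := fun w => by
    refine squeeze_zero_norm (a := fun n => d n * (2 * ‖w‖)) (fun n => ?_) ?_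
    · have h1 : Z n (M w) = w - (d n : ℂ) • Z n w := by
        have := (hZ n).left w
        exact eq_sub_of_add_eq this
      rw [norm_smul, Complex.norm_real, Real.norm_of_nonneg (hd n).le, h1]
      have h2 := hb n w
      have h3 := norm_sub_le w ((d n : ℂ) • Z n w)
      have := (hd n).le
      gcongr
      linarith
    · simpa using hd0.mul_const (2 * ‖w‖)
  -- the orthogonal complement of the kernel
  have hcl : ∀ w, E w = 0 → w ∈ closure (Set.range M) := fun w hw => by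
    have h1 : w ∈ (LinearMap.range (M : K →ₗ[ℂ] K)).topologicalClosure := by
      rw [← Submodule.orthogonal_orthogonal_eq_closure, Submodule.mem_orthogonal]
      intro x hx
      have hx' : M x = 0 := by
        refine ext_inner_left ℂ (fun y => ?_)
        rw [inner_zero_right, ← hM.inner_left_eq_inner_right]
        exact (Submodule.mem_orthogonal _ _).1 hx (M y) ⟨y, rfl⟩
      rw [← (hk x).1 hx', ← hE, hw, inner_zero_right]
    exact h1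
  have h0 : ∀ w, E w = 0 → Tendsto (fun n => (d n : ℂ) • Z n w) atTop (𝓝 0) := fun w hw => by
    rw [Metric.tendsto_atTop]
    intro ε hε
    obtain ⟨_, ⟨y, rfl⟩, hy⟩ := Metric.mem_closure_iff.1 (hcl w hw) (ε / 2) (by positivity)
    obtain ⟨N, hN⟩ := Metric.tendsto_atTop.1 (hran y) (ε / 2) (by positivity)
    refine ⟨N, fun n hn => ?_⟩
    have h1 := hN n hn
    rw [dist_zero_right] at h1 ⊢
    have h2 : (d n : ℂ) • Z n w = (d n : ℂ) • Z n (w - M y) + (d n : ℂ) • Z n (M y) := by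
      rw [← smul_add, ← map_add, sub_add_cancel]
    rw [h2]
    rw [dist_eq_norm] at hy
    calc _ ≤ ‖(d n : ℂ) • Z n (w - M y)‖ + ‖(d n : ℂ) • Z n (M y)‖ := norm_add_le _ _
      _ ≤ ‖w - M y‖ + ‖(d n : ℂ) • Z n (M y)‖ := by gcongr; exact hb _ _
      _ < ε / 2 + ε / 2 := by gcongr
      _ = ε := by ring
  have h1 : ∀ n, (d n : ℂ) • Z n (E v) = E v := fun n => by
    have h2 := (hZ n).left (E v)
    rw [(hk (E v)).2 (hE2 v), map_zero, zero_add] at h2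
    exact h2
  have h2 := h0 (v - E v) (by rw [map_sub, hE2, sub_self])
  have h3 : (fun n => (d n : ℂ) • Z n v) = fun n => (d n : ℂ) • Z n (v - E v) + E v := by
    funext n
    rw [map_sub, smul_sub, h1, sub_add_cancel]
  rw [h3]
  simpa using h2.add_const (E v)

end res

end Pool.Agent.K3h73.TF
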