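import Mathlib

/-!
Definitions and statements (NOT results) of the bricks of the project on trace-class perturbations of
generators of `II₁` factors (owner helper73, problem MP_5ec4a4_an).
-/

set_option autoImplicit false

namespace Pool.Agent.K3h73.TF

open scoped InnerProductSpace ComplexConjugate Topology
open FreeGroup Filter

/-- the free group of rank two -/
abbrev G := FreeGroup Bool

/-- `k` is a nuclear operator: `k = ∑ x_n ⊗ y_n^*` with `∑ ‖x_n‖ ‖y_n‖ ≤ c`. -/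
def Nuc {E F : Type} [NormedAddCommGroup E] [InnerProductSpace ℂ E] [NormedAddCommGroup F]
    [InnerProductSpace ℂ F] (k : E →L[ℂ] F) (c : ℝ) : Prop :=
  ∃ (x : ℕ → F) (y : ℕ → E), Summable (fun n => ‖x n‖ * ‖y n‖) ∧ ∑' n, ‖x n‖ * ‖y n‖ ≤ c ∧
    ∀ v, k v = ∑' n, ⟪y n, v⟫_ℂ • x n

section defs
variable {H : Type} [NormedAddCommGroup H] [InnerProductSpace ℂ H] [CompleteSpace H]

/-- `M` is a factor of type `II₁` on `H` (Murray–von Neumann): a von Neumann algebra with trivial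
centre in which the identity is finite and which has no minimal projections. -/
structure IsTypeII1Factor (M : Set (H →L[ℂ] H)) : Prop where
  bicommutant : Set.centralizer (Set.centralizer M) = M
  star_mem : ∀ x ∈ M, star x ∈ M
  factor : ∀ x ∈ M, x ∈ Set.centralizer M → ∃ c : ℂ, x = c • (1 : H →L[ℂ] H)
  finite : ∀ v ∈ M, star v * v = 1 → v * star v = 1
  no_minimal : ∀ p ∈ M, IsStarProjection p → p ≠ 0 →
    ∃ q ∈ M, IsStarProjection q ∧ q ≠ 0 ∧ q ≠ p ∧ p * q = q

/-- The closed subspace `V` is nonzero and reduces `T`, and the restriction of `T` to `V` is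
irreducible. -/
structure IrredOn (T : H →L[ℂ] H) (V : Submodule ℂ H) : Prop where
  closed : IsClosed (V : Set H)
  ne_bot : V ≠ ⊥
  map : ∀ v ∈ V, T v ∈ V
  map_star : ∀ v ∈ V, (star T) v ∈ V
  irred : ∀ L : Submodule ℂ H, L ≤ V → IsClosed (L : Set H) → (∀ v ∈ L, T v ∈ L) →
    (∀ v ∈ L, (star T) v ∈ L) → L = ⊥ ∨ L = V

/-- `T` is a countable direct sum of irreducible operators. -/
def IsSumOfIrreducibles (T : H →L[ℂ] H) : Prop :=
  ∃ (ι : Type) (_ : Countable ι) (V : ι → Submodule ℂ H), (∀ i, IrredOn T (V i)) ∧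
    (∀ i j, i ≠ j → ∀ v ∈ V i, ∀ w ∈ V j, ⟪v, w⟫_ℂ = 0) ∧ (⨆ i, V i).topologicalClosure = ⊤

end defs

/-- MT: a summation formula on the tree of the free group. `startsWith (i, false)` is the set of the
elements whose reduced word starts with the inverse of the generator `of i`. -/
def St_mt : Prop :=
  ∀ (p : G → G → ℂ) (x : G → ℂ) (r : ℂ) (F : Finset G),
    (∀ h, HasSum (fun u => p u h) (x h)) → (∀ u, HasSum (fun h => p u h) r) →
    (∀ (i : Bool) (u h : G), h ∉ F → p (of i * u) (of i * h) = p u h) →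
    x 1 - r = ∑ i : Bool, ∑ h ∈ F,
      (startsWith (i, false)).indicator (fun h => x (of i * h) - x h) h

/-- ARG: a selfadjoint `A` with `U = ((1 + iA) / (1 - iA))²`. -/
def St_arg : Prop :=
  ∀ (H : Type) [NormedAddCommGroup H] [InnerProductSpace ℂ H] [CompleteSpace H] (U : H →L[ℂ] H),
    star U * U = 1 → U * star U = 1 → (∀ v, U v = -v → v = 0) →
    ∃ A : H →L[ℂ] H, star A = A ∧ ‖A‖ ≤ 1 ∧
      (∀ X : H →L[ℂ] H, X * U = U * X → X * A = A * X) ∧
      (1 + Complex.I • A) ^ 2 = U * (1 - Complex.I • A) ^ 2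

/-- INTER: an operator which intertwines `U'` and `U` intertwines `A'` and `A`. -/
def St_inter : Prop :=
  ∀ (H : Type) [NormedAddCommGroup H] [InnerProductSpace ℂ H] [CompleteSpace H]
    (U U' A A' Θ : H →L[ℂ] H) (c : ℝ),
    star U * U = 1 → U * star U = 1 →
    (∀ v w, Tendsto (fun n : ℕ => ⟪w, (U ^ n) v⟫_ℂ) atTop (𝓝 0)) →
    star A = A → ‖A‖ ≤ 1 → (1 + Complex.I • A) ^ 2 = U * (1 - Complex.I • A) ^ 2 →
    star A' = A' → (1 + Complex.I • A') ^ 2 = U' * (1 - Complex.I • A') ^ 2 →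
    Nuc (A' - A) c → Θ * U' = U * Θ → Θ * A' = A * Θ

/-- FAC: the von Neumann algebra generated by the left translations of the free group is a
factor of type `II₁`. -/
def St_fac : Prop :=
  ∀ (H : Type) [NormedAddCommGroup H] [InnerProductSpace ℂ H] [CompleteSpace H]
    (b : HilbertBasis G ℂ H) (lam : G → H →L[ℂ] H), (∀ g h, lam g (b h) = b (g * h)) →
    IsTypeII1Factor (Set.centralizer (Set.centralizer (Set.range lam)))

/-- MIN: the commutant of the left translations of the free group has no minimal projections. -/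
def St_min : Prop :=
  ∀ (H : Type) [NormedAddCommGroup H] [InnerProductSpace ℂ H] [CompleteSpace H]
    (b : HilbertBasis G ℂ H) (lam : G → H →L[ℂ] H), (∀ g h, lam g (b h) = b (g * h)) →
    ∀ e : H →L[ℂ] H, star e = e → e * e = e → e ≠ 0 → (∀ g, e * lam g = lam g * e) →
    ∃ X : H →L[ℂ] H, (∀ g, X * lam g = lam g * X) ∧ ∀ c : ℂ, e * X * e ≠ c • e

/-- SCHUR: Schur's lemma for the restriction of a selfadjoint set of operators to the range of a
projection `P`. -/
def St_schur : Prop :=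
  ∀ (H : Type) [NormedAddCommGroup H] [InnerProductSpace ℂ H] [CompleteSpace H]
    (S : Set (H →L[ℂ] H)) (P : H →L[ℂ] H), (∀ s ∈ S, star s ∈ S) →
    star P = P → P * P = P → (∀ s ∈ S, P * s = s * P) →
    (∀ L : Submodule ℂ H, IsClosed (L : Set H) → (∀ v ∈ L, P v = v) →
      (∀ s ∈ S, ∀ v ∈ L, s v ∈ L) → L = ⊥ ∨ ∀ v, P v ∈ L) →
    ∀ X : H →L[ℂ] H, (∀ s ∈ S, X * s = s * X) → P * X * P = X → ∃ c : ℂ, X = c • P

/-- TR: an operator with finite trace norm `tr |K| = ∑ ⟪b n, |K| (b n)⟫` is nuclear, with at most this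
nuclear norm. -/
def St_tr : Prop :=
  ∀ (H : Type) [NormedAddCommGroup H] [InnerProductSpace ℂ H] [CompleteSpace H]
    (b : HilbertBasis ℕ ℂ H) (K : H →L[ℂ] H),
    Summable (fun n => (⟪b n, CFC.abs K (b n)⟫_ℂ).re) →
    Nuc K (∑' n, (⟪b n, CFC.abs K (b n)⟫_ℂ).re)

/-- WLIM: a bounded sequence of operators has a weak limit along the hyperfilter. -/
def St_wlim : Prop :=
  ∀ (H : Type) [NormedAddCommGroup H] [InnerProductSpace ℂ H] [CompleteSpace H]
    (Θ : ℕ → H →L[ℂ] H), (∀ n, ‖Θ n‖ ≤ 1) →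
    ∃ Θ' : H →L[ℂ] H, ‖Θ'‖ ≤ 1 ∧
      ∀ v w, Tendsto (fun n => ⟪w, Θ n v⟫_ℂ) (hyperfilter ℕ : Filter ℕ) (𝓝 ⟪w, Θ' v⟫_ℂ)

/-- CAY: a unitary which is a small nuclear perturbation of the identity is a strong limit of
finitely supported unitaries of the same kind. -/
def St_cay : Prop :=
  ∀ (H : Type) [NormedAddCommGroup H] [InnerProductSpace ℂ H] [CompleteSpace H]
    (b : HilbertBasis G ℂ H) (W : H →L[ℂ] H) (c : ℝ),
    star W * W = 1 → W * star W = 1 → Nuc (W - 1) c → c < 2 →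
    ∃ Wm : ℕ → H →L[ℂ] H,
      (∀ m, star (Wm m) * Wm m = 1 ∧ Wm m * star (Wm m) = 1 ∧
        Nuc (Wm m - 1) (2 * c / (2 - c)) ∧ ∃ F : Finset G, ∀ h, h ∉ F → Wm m (b h) = b h) ∧
      ∀ v, Tendsto (fun m => Wm m v) atTop (𝓝 (W v))

end Pool.Agent.K3h73.TF
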